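import Pool.Agent.N864.GN.InvA
import Pool.Agent.W66.ZB

/-!
# Project GN, subtask INVL: zero free region and bound for the inverse (helper864)
-/

set_option autoImplicit false

namespace Pool.Agent.N864.GN

open Pool.Agent.N782.GN
open Pool.Agent.H304R3.HK
open Finset Filter Topology Complex Metric

/-- real parts of sums over zeros -/
lemma sum_re {c : ℂ} (hc : 1 < c.re) (m : Multiset ℂ) (h : ∀ ρ ∈ m, ρ.re ≤ 1) :
    0 ≤ ((m.map (fun ρ => 1 / (c - ρ))).sum).re ∧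
      ∀ ρ ∈ m, (1 / (c - ρ)).re ≤ ((m.map (fun ρ => 1 / (c - ρ))).sum).re := by
  revert h
  induction m using Multiset.induction_on with
  | empty => intro _; simp
  | cons a m ih =>
    intro h
    have ha := h a (Multiset.mem_cons_self a m)
    obtain ⟨i1, i2⟩ := ih fun ρ hρ => h ρ (Multiset.mem_cons_of_mem hρ)
    have ha2 : 0 ≤ (1 / (c - a)).re := by
      rw [one_div, Complex.inv_re]
      apply div_nonneg _ (Complex.normSq_nonneg _)
      simp only [sub_re]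
      linarith
    rw [Multiset.map_cons, Multiset.sum_cons, add_re]
    refine ⟨by linarith, fun ρ hρ => ?_⟩
    rw [Multiset.mem_cons] at hρ
    rcases hρ with rfl | hρ
    · linarith
    · have := i2 ρ hρ
      linarith

/-- the local lemma -/
lemma loc {f : ℂ → ℂ} {w R η τ Λ : ℝ} (hw0 : 0 < w) (hR : 1 ≤ R) (hη0 : 0 < η)
    (han : AnalyticOnNhd ℂ f (closedBall (⟨1 + η, τ⟩ : ℂ) (4 * w)))
    (hball : ∀ z ∈ closedBall (⟨1 + η, τ⟩ : ℂ) (4 * w), ‖f z‖ ≤ R)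
    (hc0 : f ⟨1 + η, τ⟩ ≠ 0) (hinv : R * ‖(f ⟨1 + η, τ⟩)⁻¹‖ ≤ Real.exp Λ)
    (hz : ∀ ρ ∈ closedBall (⟨1 + η, τ⟩ : ℂ) (4 * w), f ρ = 0 → ρ.re ≤ 1) :
    (-(12 * (Λ + 1) / w) ≤ (deriv f ⟨1 + η, τ⟩ / f ⟨1 + η, τ⟩).re) ∧
    (∀ ρ ∈ closedBall (⟨1 + η, τ⟩ : ℂ) (2 * w), f ρ = 0 →
      (1 / ((⟨1 + η, τ⟩ : ℂ) - ρ)).re - 12 * (Λ + 1) / w ≤
        (deriv f ⟨1 + η, τ⟩ / f ⟨1 + η, τ⟩).re) ∧
    (∀ z ∈ closedBall (⟨1 + η, τ⟩ : ℂ) w, ∀ d : ℝ, 0 < d →
      (∀ ρ ∈ closedBall (⟨1 + η, τ⟩ : ℂ) (2 * w), f ρ = 0 → d ≤ ‖z - ρ‖) →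
      f z ≠ 0 ∧ ‖deriv f z / f z‖ ≤ Λ * (3 / 2) / d + 12 * (Λ + 1) / w) := by
  set c : ℂ := ⟨1 + η, τ⟩ with hc
  have hcr : c.re = 1 + η := rfl
  have hcm : c ∈ closedBall c (4 * w) := mem_closedBall_self (by linarith)
  have hcb := hball c hcm
  have hcre : 1 < c.re := by rw [hcr]; linarith
  have hcpos : 0 < ‖f c‖ := norm_pos_iff.2 hc0
  have hR0 : 0 < R := by linarith
  have hlog : Real.log (R / ‖f c‖) ≤ Λ := by
    rw [Real.log_le_iff_le_exp (by positivity), div_eq_mul_inv, ← norm_inv]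
    exact hinv
  have hlog0 : 0 ≤ Real.log (R / ‖f c‖) :=
    Real.log_nonneg (by rw [le_div_iff₀ hcpos]; linarith)
  have hq : Real.log (2 * w / (4 * w - 2 * w)) = 0 := by
    have h1 : 4 * w - 2 * w = 2 * w := by ring
    rw [h1, div_self (by positivity), Real.log_one]
  have herr : 2 * (Real.log (R / ‖f c‖) +
      Real.log (R / ‖f c‖) / Real.log (4 * w / (2 * w)) *
      Real.log (2 * w / (4 * w - 2 * w)) + 1) * (3 / 2 * w) / (2 * w - 3 / 2 * w) /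
      (3 / 2 * w - w) ≤ 12 * (Λ + 1) / w := by
    rw [hq]
    have e1 : 2 * w - 3 / 2 * w = w / 2 := by ring
    have e2 : 3 / 2 * w - w = w / 2 := by ring
    rw [e1, e2, mul_zero, add_zero]
    have e3 : 2 * (Real.log (R / ‖f c‖) + 1) * (3 / 2 * w) / (w / 2) / (w / 2) =
        12 * (Real.log (R / ‖f c‖) + 1) / w := by
      field_simp
      ring
    rw [e3]
    gcongr
  obtain ⟨s, hs1, hs2, hs3⟩ := Pool.Agent.W66.landau_re (f := f) (c := c) (r := 2 * w)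
    (r1 := 3 / 2 * w) (r2 := w) (R := 4 * w) (M := R) hw0 (by linarith) (by linarith)
    (by linarith) (by linarith) hR hcb han hc0 hball
  have hzre : ∀ ρ ∈ s, ρ.re ≤ 1 := fun ρ hρ => hz ρ
    (closedBall_subset_closedBall (by linarith) (hs1 ρ hρ).1) (hs1 ρ hρ).2
  have hcne : ∀ ρ ∈ s, c ≠ ρ := by
    intro ρ hρ he
    have h1 := hzre ρ hρ
    rw [← he] at h1
    linarith
  have h3 := (hs3 c (mem_closedBall_self hw0.le) hcne).trans herr
  obtain ⟨j1, j2⟩ := sum_re hcre s hzre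
  have h4 := (Complex.abs_re_le_norm _).trans h3
  rw [sub_re, abs_le] at h4
  refine ⟨by linarith [h4.1], fun ρ hρ hρ0 => ?_, fun z hz d hd hdist => ?_⟩
  · have := j2 ρ (hs2 ρ hρ hρ0)
    linarith [h4.1]
  · obtain ⟨h5, h6⟩ := H370.Loc.landau (f := f) (c := c) (r := 2 * w)
      (r1 := 3 / 2 * w) (r2 := w) (R := 4 * w) (M := R) hw0 (by linarith) (by linarith)
      (by linarith) (by linarith) hR hcb han hc0 hball z hz d hd hdist
    refine ⟨h5, h6.trans (add_le_add ?_ herr)⟩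
    have e1 : 4 * w / (2 * w) = 2 := by
      field_simp
      norm_num
    rw [e1]
    have hl2 : 2 / 3 ≤ Real.log 2 := by
      have := Real.log_two_gt_d9
      linarith
    have e2 : Real.log (R / ‖f c‖) / Real.log 2 ≤ Λ * (3 / 2) := by
      rw [div_le_iff₀ (by linarith)]
      have h7 : 0 ≤ Λ := hlog0.trans hlog
      nlinarith
    gcongr

/-- growth along a horizontal segment -/
lemma grow {f : ℂ → ℂ} {σ x1 t G : ℝ} (hσ : σ ≤ x1)
    (hf : ∀ x ∈ Set.Icc σ x1, DifferentiableAt ℂ f ⟨x, t⟩)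
    (h : ∀ x ∈ Set.Icc σ x1, f ⟨x, t⟩ ≠ 0 ∧ ‖deriv f ⟨x, t⟩ / f ⟨x, t⟩‖ ≤ G) :
    ‖f ⟨x1, t⟩‖ ≤ ‖f ⟨σ, t⟩‖ * Real.exp (G * (x1 - σ)) := by
  have hd : ∀ x ∈ Set.Icc σ x1, HasDerivAt (fun x : ℝ => f ⟨x, t⟩) (deriv f ⟨x, t⟩) x := by
    intro x hx
    have h1 := (hf x hx).hasDerivAt
    have h2 : HasDerivAt (fun x : ℝ => (⟨x, t⟩ : ℂ)) 1 x := by
      have h3 : (fun x : ℝ => (⟨x, t⟩ : ℂ)) = fun x : ℝ => (x : ℂ) + t * I := by
        ext x
        apply Complex.ext <;> simp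
      rw [h3]
      exact (HasDerivAt.ofReal_comp (hasDerivAt_id x)).add_const _
    have h3 := HasDerivAt.comp x h1 h2
    rw [mul_one] at h3
    exact h3
  have hg := norm_le_gronwallBound_of_norm_deriv_right_le (f := fun x : ℝ => f ⟨x, t⟩)
    (f' := fun x => deriv f ⟨x, t⟩) (δ := ‖f ⟨σ, t⟩‖) (K := G) (ε := 0)
    (a := σ) (b := x1) (fun x hx => (hd x hx).continuousAt.continuousWithinAt)
    (fun x hx => (hd x ⟨hx.1, hx.2.le⟩).hasDerivWithinAt) le_rfl (fun x hx => by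
      obtain ⟨h1, h2⟩ := h x ⟨hx.1, hx.2.le⟩
      have h3 : deriv f ⟨x, t⟩ = deriv f ⟨x, t⟩ / f ⟨x, t⟩ * f ⟨x, t⟩ := by
        field_simp
      rw [add_zero, h3, norm_mul]
      exact mul_le_mul_of_nonneg_right h2 (norm_nonneg _)) x1 ⟨hσ, le_rfl⟩
  rwa [gronwallBound_ε0] at hg

/-- the constant in the exponent -/
noncomputable def mA (A : ℝ) : ℝ := 2 * Real.log (2 * A) + 6

/-- the inverse near the line -/
lemma inv_exp {A θ R η : ℝ} (hA : 1 ≤ A) (hθ0 : 0 < θ) (hθ : θ ≤ 1 / 20) (hR : 3 ≤ R)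
    (hη : η = θ / (A * Real.log (R / θ))) : 4 ≤ Real.log (R / θ) ∧ 0 < η ∧ η ≤ θ / 4 ∧
    (2 / η) ^ 2 ≤ Real.exp ((mA A - 2) * Real.log (R / θ)) ∧
    R * (2 / η) ^ 2 ≤ Real.exp ((mA A - 1) * Real.log (R / θ)) := by
  have h0 : 0 < R / θ := by positivity
  have h1 : 60 ≤ R / θ := by
    rw [le_div_iff₀ hθ0]
    linarith
  have h4 : 4 ≤ Real.log (R / θ) := by
    rw [Real.le_log_iff_exp_le h0]
    have e := Real.exp_one_lt_d9
    have e2 : Real.exp 4 = (Real.exp 1) ^ 4 := by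
      rw [← Real.exp_nat_mul]
      norm_num
    rw [e2]
    have e3 : (Real.exp 1) ^ 4 ≤ (2.7182818286 : ℝ) ^ 4 :=
      pow_le_pow_left₀ (Real.exp_pos 1).le e.le 4
    have e4 : (2.7182818286 : ℝ) ^ 4 ≤ 60 := by norm_num
    linarith
  have hexp : Real.exp (Real.log (R / θ)) = R / θ := Real.exp_log h0
  generalize Real.log (R / θ) = Q at *
  have hQ0 : 0 < Q := by linarith
  have hA0 : 0 < A := by linarith
  have hη0 : 0 < η := by rw [hη]; positivity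
  have h5 : η ≤ θ / 4 := by
    rw [hη]
    exact div_le_div_of_nonneg_left hθ0.le (by norm_num) (by nlinarith)
  have h6 : 2 / η ≤ Real.exp ((Real.log (2 * A) + 2) * Q) := by
    have e1 : 2 / η = 2 * A * (Q * (1 / θ)) := by
      rw [hη]
      field_simp
    rw [e1]
    have e2 : (1 : ℝ) / θ ≤ Real.exp Q := by
      rw [hexp]
      exact div_le_div_of_nonneg_right (by linarith) hθ0.le
    have e3 : Q ≤ Real.exp Q := by linarith [Real.add_one_le_exp Q]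
    have e4 : Q * (1 / θ) ≤ Real.exp Q * Real.exp Q := mul_le_mul e3 e2 (by positivity)
      (Real.exp_pos _).le
    have e5 : 2 * A ≤ Real.exp (Real.log (2 * A) * Q) := by
      have e6 : 0 ≤ Real.log (2 * A) := Real.log_nonneg (by linarith)
      calc 2 * A = Real.exp (Real.log (2 * A)) := (Real.exp_log (by positivity)).symm
        _ ≤ Real.exp (Real.log (2 * A) * Q) := Real.exp_le_exp.2 (by nlinarith)
    calc 2 * A * (Q * (1 / θ)) ≤ Real.exp (Real.log (2 * A) * Q) * (Real.exp Q * Real.exp Q) :=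
          mul_le_mul e5 e4 (by positivity) (Real.exp_pos _).le
      _ = Real.exp ((Real.log (2 * A) + 2) * Q) := by
        rw [← Real.exp_add, ← Real.exp_add]
        congr 1
        ring
  have h7 : (2 / η) ^ 2 ≤ Real.exp ((mA A - 2) * Q) := by
    have e1 := pow_le_pow_left₀ (by positivity) h6 2
    rw [← Real.exp_nat_mul] at e1
    have e2 : ((2 : ℕ) : ℝ) * ((Real.log (2 * A) + 2) * Q) = (mA A - 2) * Q := by
      unfold mA
      push_cast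
      ring
    rwa [e2] at e1
  refine ⟨h4, hη0, h5, h7, ?_⟩
  have h8 : R ≤ Real.exp Q := by
    rw [hexp, le_div_iff₀ hθ0]
    nlinarith
  calc R * (2 / η) ^ 2 ≤ Real.exp Q * Real.exp ((mA A - 2) * Q) :=
        mul_le_mul h8 h7 (by positivity) (Real.exp_pos _).le
    _ = Real.exp ((mA A - 1) * Q) := by
      rw [← Real.exp_add]
      congr 1
      ring

/-- the hypotheses near one height -/
structure Dat (h : ZI →* ℂ) (t r θ R : ℝ) (L : ℂ → ℂ) : Prop where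
  uh : UH h
  θ0 : 0 < θ
  θ1 : θ ≤ 1 / 20
  R3 : 3 ≤ R
  diff : DifferentiableOn ℂ L {s | 1 - 4 * θ < s.re ∧ |s.im - t| < r}
  eq : ∀ s : ℂ, 1 < s.re → |s.im - t| < r → L s = LSeries (bb h) s
  bd : ∀ s : ℂ, 1 - 4 * θ < s.re → s.re ≤ 3 → |s.im - t| < r → ‖L s‖ ≤ R

lemma isOpen_reg (a t r : ℝ) : IsOpen {s : ℂ | a < s.re ∧ |s.im - t| < r} := by
  have h1 : IsOpen {s : ℂ | a < s.re} := isOpen_lt continuous_const Complex.continuous_re
  have h2 : IsOpen {s : ℂ | |s.im - t| < r} :=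
    isOpen_lt (Complex.continuous_im.sub continuous_const).abs continuous_const
  exact h1.inter h2

lemma Dat.ne {h : ZI →* ℂ} {t r θ R : ℝ} {L : ℂ → ℂ} (D : Dat h t r θ R L) {s : ℂ} (hs : 1 < s.re)
    (hi : |s.im - t| < r) : L s ≠ 0 ∧ ‖(L s)⁻¹‖ ≤ (1 + 1 / (s.re - 1)) ^ 2 ∧
    deriv L s / L s = deriv (LSeries (bb h)) s / LSeries (bb h) s := by
  obtain ⟨h1, h2⟩ := inv_le D.uh hs
  rw [D.eq s hs hi]
  refine ⟨h1, h2, ?_⟩
  congr 1
  apply Filter.EventuallyEq.deriv_eq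
  filter_upwards [(isOpen_reg 1 t r).mem_nhds ⟨hs, hi⟩] with z hz
  exact D.eq z hz.1 hz.2

/-- the local lemma for our functions -/
lemma Dat.loc {h : ZI →* ℂ} {t r θ R : ℝ} {L : ℂ → ℂ} (D : Dat h t r θ R L) {A η τ : ℝ} (hA : 1 ≤ A)
    (hη : η = θ / (A * Real.log (R / θ))) (hτ : |τ - t| + 2 * θ < r) :
    (-(24 * (mA A) * Real.log (R / θ) / θ) ≤ (deriv L ⟨1 + η, τ⟩ / L ⟨1 + η, τ⟩).re) ∧
    (∀ ρ ∈ closedBall (⟨1 + η, τ⟩ : ℂ) θ, L ρ = 0 →
      (1 / ((⟨1 + η, τ⟩ : ℂ) - ρ)).re - 24 * (mA A) * Real.log (R / θ) / θ ≤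
        (deriv L ⟨1 + η, τ⟩ / L ⟨1 + η, τ⟩).re) ∧
    (∀ z ∈ closedBall (⟨1 + η, τ⟩ : ℂ) (θ / 2), ∀ d : ℝ, 0 < d →
      (∀ ρ ∈ closedBall (⟨1 + η, τ⟩ : ℂ) θ, L ρ = 0 → d ≤ ‖z - ρ‖) →
      L z ≠ 0 ∧ ‖deriv L z / L z‖ ≤ mA A * Real.log (R / θ) * (3 / 2) / d +
        24 * (mA A) * Real.log (R / θ) / θ) := by
  have hθ0 := D.θ0
  have hθ1 := D.θ1
  have hR3 := D.R3
  obtain ⟨hQ4, hη0, hη1, hi1, hi2⟩ := inv_exp hA D.θ0 D.θ1 D.R3 hη
  have hball : ∀ z ∈ closedBall (⟨1 + η, τ⟩ : ℂ) (4 * (θ / 2)),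
      1 - 4 * θ < z.re ∧ z.re ≤ 3 ∧ |z.im - t| < r := by
    intro z hz
    rw [mem_closedBall, dist_eq_norm] at hz
    have h1 := (abs_re_le_norm (z - ⟨1 + η, τ⟩)).trans hz
    have h2 := (abs_im_le_norm (z - ⟨1 + η, τ⟩)).trans hz
    rw [sub_re, abs_le] at h1
    rw [sub_im] at h2
    have h3 : (⟨1 + η, τ⟩ : ℂ).re = 1 + η := rfl
    have h4 : (⟨1 + η, τ⟩ : ℂ).im = τ := rfl
    rw [h3] at h1
    rw [h4] at h2
    refine ⟨by linarith [h1.1], by linarith [h1.2], ?_⟩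
    have h5 : |z.im - t| ≤ |z.im - τ| + |τ - t| := abs_sub_le _ _ _
    linarith
  have han : AnalyticOnNhd ℂ L (closedBall (⟨1 + η, τ⟩ : ℂ) (4 * (θ / 2))) :=
    (D.diff.analyticOnNhd (isOpen_reg _ _ _)).mono fun z hz =>
      ⟨(hball z hz).1, (hball z hz).2.2⟩
  have hc1 : 1 < (⟨1 + η, τ⟩ : ℂ).re := by
    show 1 < 1 + η
    linarith
  have hc2 : |(⟨1 + η, τ⟩ : ℂ).im - t| < r := by
    show |τ - t| < r
    linarith
  obtain ⟨n1, n2, n3⟩ := D.ne hc1 hc2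
  have hinv : R * ‖(L ⟨1 + η, τ⟩)⁻¹‖ ≤ Real.exp ((mA A - 1) * Real.log (R / θ)) := by
    refine le_trans (mul_le_mul_of_nonneg_left (n2.trans ?_) (by linarith)) hi2
    have e1 : (⟨1 + η, τ⟩ : ℂ).re - 1 = η := by
      show 1 + η - 1 = η
      ring
    rw [e1]
    have h3 : 1 ≤ 1 / η := by
      rw [le_div_iff₀ hη0]
      linarith
    have h4 : 2 / η = 1 / η + 1 / η := by ring
    exact pow_le_pow_left₀ (by positivity) (by linarith) 2
  have hz : ∀ ρ ∈ closedBall (⟨1 + η, τ⟩ : ℂ) (4 * (θ / 2)), L ρ = 0 → ρ.re ≤ 1 := by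
    intro ρ hρ hρ0
    by_contra hcon
    push Not at hcon
    exact (D.ne hcon (hball ρ hρ).2.2).1 hρ0
  obtain ⟨l1, l2, l3⟩ := GN.loc (w := θ / 2) (by linarith) (by linarith) hη0 han
    (fun z hz => D.bd z (hball z hz).1 (hball z hz).2.1 (hball z hz).2.2) n1 hinv hz
  have hm : (mA A - 1) * Real.log (R / θ) + 1 ≤ mA A * Real.log (R / θ) := by linarith
  have hE : 12 * ((mA A - 1) * Real.log (R / θ) + 1) / (θ / 2) ≤
      24 * (mA A) * Real.log (R / θ) / θ := by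
    have e1 : 24 * (mA A) * Real.log (R / θ) / θ = 12 * (mA A * Real.log (R / θ)) / (θ / 2) := by
      field_simp
      ring
    rw [e1]
    gcongr
  have hr2 : 2 * (θ / 2) = θ := by ring
  rw [hr2] at l2 l3
  refine ⟨by linarith, fun ρ hρ hρ0 => ?_, fun z hz d hd hdist => ?_⟩
  · have := l2 ρ hρ hρ0
    linarith
  · obtain ⟨m1, m2⟩ := l3 z hz d hd hdist
    refine ⟨m1, m2.trans (add_le_add ?_ hE)⟩
    have : (mA A - 1) * Real.log (R / θ) ≤ mA A * Real.log (R / θ) := by linarith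
    gcongr

/-- no zeros near the line -/
lemma zfree {A K : ℝ} (hA : 1 ≤ A) (hK0 : 0 < K)
    (hK : ∀ σ : ℝ, 1 < σ → σ ≤ 2 → AA σ ≤ 1 / (σ - 1) + K) (hAK : 3 * K + 120 * mA A ≤ A / 2)
    {h : ZI →* ℂ} {t θ R : ℝ} {L1 L2 : ℂ → ℂ} (D1 : Dat h t (4 * θ) θ R L1)
    (D2 : Dat (h * h) (2 * t) (8 * θ) θ R L2) {ρ : ℂ} (hρ : L1 ρ = 0) (ht : |ρ.im - t| ≤ θ)
    (hre : 1 - θ / 2 ≤ ρ.re) : ρ.re ≤ 1 - θ / (7 * A * Real.log (R / θ)) := by
  have hθ0 := D1.θ0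
  have hθ1 := D1.θ1
  have hR3 := D1.R3
  obtain ⟨η, hη⟩ : ∃ η : ℝ, η = θ / (A * Real.log (R / θ)) := ⟨_, rfl⟩
  obtain ⟨hQ4, hη0, hη1, hi1, hi2⟩ := inv_exp hA D1.θ0 D1.θ1 D1.R3 hη
  have hre1 : ρ.re ≤ 1 := by
    by_contra hcon
    push Not at hcon
    exact (D1.ne hcon (by linarith)).1 hρ
  obtain ⟨a1, a2, -⟩ := D1.loc (τ := ρ.im) hA hη (by linarith)
  have h2t : |2 * ρ.im - 2 * t| = 2 * |ρ.im - t| := by
    rw [← mul_sub, abs_mul]
    norm_num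
  obtain ⟨b1, b2, -⟩ := D2.loc (τ := 2 * ρ.im) hA hη (by rw [h2t]; linarith)
  have hball : ρ ∈ closedBall (⟨1 + η, ρ.im⟩ : ℂ) θ := by
    rw [mem_closedBall, dist_eq_norm]
    have e : ρ - ⟨1 + η, ρ.im⟩ = ((ρ.re - (1 + η) : ℝ) : ℂ) := by
      apply Complex.ext <;> simp
    rw [e, Complex.norm_real, Real.norm_eq_abs, abs_le]
    constructor <;> linarith
  have a3 := a2 ρ hball hρ
  have e1 : (1 / ((⟨1 + η, ρ.im⟩ : ℂ) - ρ)).re = 1 / (1 + η - ρ.re) := by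
    have e : (⟨1 + η, ρ.im⟩ : ℂ) - ρ = ((1 + η - ρ.re : ℝ) : ℂ) := by
      apply Complex.ext <;> simp
    rw [e, ← Complex.ofReal_one, ← Complex.ofReal_div, Complex.ofReal_re]
  rw [e1] at a3
  have hc1 : ∀ v : ℝ, 1 < (⟨1 + η, v⟩ : ℂ).re := fun v => by
    show 1 < 1 + η
    linarith
  have h341 := tfo D1.uh (σ := 1 + η) (by linarith) ρ.im
  have n1 := (D1.ne (hc1 ρ.im) (by show |ρ.im - t| < 4 * θ; linarith)).2.2
  have n2 := (D2.ne (hc1 (2 * ρ.im)) (by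
    show |2 * ρ.im - 2 * t| < 8 * θ
    rw [h2t]
    linarith)).2.2
  rw [n1] at a3
  rw [n2] at b1
  have hAA := hK (1 + η) (by linarith) (by linarith)
  have e2 : 1 + η - 1 = η := by ring
  rw [e2] at hAA
  have hcm : (⇑h * ⇑h : GaussianInt → ℂ) = ⇑(h * h) := rfl
  rw [hcm] at h341
  generalize Real.log (R / θ) = Q at *
  have hQ0 : 0 < Q := by linarith
  have hA0 : 0 < A := by linarith
  have h3η : 1 / η = A * (Q / θ) := by
    rw [hη]
    field_simp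
  have hQθ : 1 ≤ Q / θ := by
    rw [le_div_iff₀ hθ0]
    linarith
  have e3 : 24 * (mA A) * Q / θ = 24 * (mA A) * (Q / θ) := by ring
  rw [e3] at a3 b1
  have hD0 : 0 < 1 + η - ρ.re := by linarith
  have hKQ : K ≤ K * (Q / θ) := by nlinarith
  have hm : 4 * (1 / (1 + η - ρ.re)) ≤ 7 / 2 * A * (Q / θ) := by
    have h8 : (3 * K + 120 * mA A) * (Q / θ) ≤ A / 2 * (Q / θ) :=
      mul_le_mul_of_nonneg_right hAK (by linarith)
    rw [h3η] at hAA
    linarith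
  have h9 : 4 / (1 + η - ρ.re) ≤ 7 / 2 * A * (Q / θ) := by
    have h1 : 4 * (1 / (1 + η - ρ.re)) = 4 / (1 + η - ρ.re) := by ring
    rwa [h1] at hm
  rw [div_le_iff₀ hD0] at h9
  have h10 : η = 1 / A * (θ / Q) := by
    rw [hη]
    field_simp
  have h11 : θ / (7 * A * Q) = 1 / 7 * η := by
    rw [hη]
    field_simp
  rw [h11]
  have h12 : 8 / 7 * η ≤ 1 + η - ρ.re := by
    by_contra hcon
    push Not at hcon
    have h13 : 7 / 2 * A * (Q / θ) * (1 + η - ρ.re) < 7 / 2 * A * (Q / θ) * (8 / 7 * η) :=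
      mul_lt_mul_of_pos_left hcon (by positivity)
    have h14 : 7 / 2 * A * (Q / θ) * (8 / 7 * η) = 4 := by
      rw [hη]
      field_simp
      norm_num
    linarith
  linarith

/-- the constants -/
lemma exA (K : ℝ) : ∃ A : ℝ, 1 ≤ A ∧ 3 * K + 120 * mA A ≤ A / 2 := by
  have h1 := (Real.isLittleO_log_id_atTop).bound (show (0 : ℝ) < 1 / 4000 by norm_num)
  obtain ⟨x, hx⟩ := (h1.and ((eventually_ge_atTop (8 : ℝ)).and
    (eventually_ge_atTop (8 * (3 * K + 720))))).exists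
  obtain ⟨h2, h3, h4⟩ := hx
  refine ⟨x / 2, by linarith, ?_⟩
  rw [Real.norm_of_nonneg (Real.log_nonneg (by linarith)), id, Real.norm_of_nonneg (by linarith)] at h2
  unfold mA
  have e : 2 * (x / 2) = x := by ring
  rw [e]
  linarith

theorem invl : S_INVL := by
  obtain ⟨K, hK0, hK⟩ := AA_le
  obtain ⟨A, hA, hAK⟩ := exA K
  set M : ℝ := mA (28 * A) with hM
  have hM6 : 6 ≤ M := by
    rw [hM]
    unfold mA
    have := Real.log_nonneg (show (1 : ℝ) ≤ 2 * (28 * A) by linarith)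
    linarith
  refine ⟨28 * A + 100 * M, by linarith, ?_⟩
  intro h hh t θ R L1 L2 hθ0 hθ1 hR3 hd1 he1 hb1 hd2 he2 hb2 σ hσ1 hσ2
  have D1 : Dat h t (4 * θ) θ R L1 := ⟨hh, hθ0, hθ1, hR3, hd1, he1, hb1⟩
  have D2 : Dat (h * h) (2 * t) (8 * θ) θ R L2 := ⟨uh_sq hh, hθ0, hθ1, hR3, hd2, he2, hb2⟩
  obtain ⟨w1, hw1⟩ : ∃ w1 : ℝ, w1 = θ / (28 * A * Real.log (R / θ)) := ⟨_, rfl⟩
  obtain ⟨hQ4, hw0, hw2, hi1, hi2⟩ := inv_exp (A := 28 * A) (by linarith) hθ0 hθ1 hR3 hw1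
  have hzf : ∀ ρ : ℂ, L1 ρ = 0 → |ρ.im - t| ≤ θ → ρ.re ≤ 1 - 4 * w1 := by
    intro ρ hρ hρt
    rcases le_or_gt (1 - θ / 2) ρ.re with hc | hc
    · have h1 := zfree hA hK0 hK hAK D1 D2 hρ hρt hc
      have h2 : θ / (7 * A * Real.log (R / θ)) = 4 * w1 := by
        rw [hw1]
        field_simp
        norm_num
      linarith
    · have h3 : 4 * w1 ≤ θ / 2 := by
        have : w1 ≤ θ / 8 := by
          rw [hw1]
          exact div_le_div_of_nonneg_left hθ0.le (by norm_num) (by nlinarith)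
        linarith
      linarith
  have hσw : 1 - w1 ≤ σ := by
    have h1 : θ / ((28 * A + 100 * M) * Real.log (R / θ)) ≤ w1 := by
      rw [hw1]
      apply div_le_div_of_nonneg_left hθ0.le (by positivity)
      nlinarith
    linarith
  have hrpow : (R / θ) ^ (28 * A + 100 * M) = Real.exp ((28 * A + 100 * M) * Real.log (R / θ)) := by
    rw [Real.rpow_def_of_pos (by positivity), mul_comm]
  rw [hrpow]
  have hl := D1.loc (A := 28 * A) (η := w1) (τ := t) (by linarith) hw1 (by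
    rw [sub_self, abs_zero]
    linarith)
  have hright : ∀ x : ℝ, 1 + w1 ≤ x → L1 ⟨x, t⟩ ≠ 0 ∧
      ‖(L1 ⟨x, t⟩)⁻¹‖ ≤ Real.exp (M * Real.log (R / θ)) := by
    intro x hx
    have h1 : 1 < (⟨x, t⟩ : ℂ).re := by
      show 1 < x
      linarith
    obtain ⟨n1, n2, -⟩ := D1.ne h1 (by
      show |t - t| < 4 * θ
      rw [sub_self, abs_zero]
      linarith)
    refine ⟨n1, n2.trans ?_⟩
    show (1 + 1 / (x - 1)) ^ 2 ≤ _
    have h2 : 1 / (x - 1) ≤ 1 / w1 := one_div_le_one_div_of_le hw0 (by linarith)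
    have h3 : 1 ≤ 1 / w1 := by
      rw [le_div_iff₀ hw0]
      linarith
    have h4 : 2 / w1 = 1 / w1 + 1 / w1 := by ring
    have h5 : 0 ≤ 1 / (x - 1) := by
      apply div_nonneg zero_le_one
      linarith
    calc (1 + 1 / (x - 1)) ^ 2 ≤ (2 / w1) ^ 2 := pow_le_pow_left₀ (by linarith) (by linarith) 2
      _ ≤ Real.exp ((mA (28 * A) - 2) * Real.log (R / θ)) := hi1
      _ ≤ Real.exp (M * Real.log (R / θ)) := Real.exp_le_exp.2 (by
        rw [← hM]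
        nlinarith)
  rw [← hM] at hl hi1 hi2
  obtain ⟨-, -, hl3⟩ := hl
  generalize hQ : Real.log (R / θ) = Q at *
  have hQ0 : 0 < Q := by linarith
  rcases le_or_gt (1 + w1) σ with hc | hc
  · obtain ⟨h1, h2⟩ := hright σ hc
    exact ⟨h1, h2.trans (Real.exp_le_exp.2 (by nlinarith))⟩
  have hseg : ∀ x ∈ Set.Icc σ (1 + w1), L1 ⟨x, t⟩ ≠ 0 ∧
      ‖deriv L1 ⟨x, t⟩ / L1 ⟨x, t⟩‖ ≤ 25 * M * Q / w1 := by
    intro x hx
    obtain ⟨h1, h2⟩ := hl3 ⟨x, t⟩ (by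
      rw [mem_closedBall, dist_eq_norm]
      have e : (⟨x, t⟩ : ℂ) - ⟨1 + w1, t⟩ = ((x - (1 + w1) : ℝ) : ℂ) := by
        apply Complex.ext <;> simp
      rw [e, Complex.norm_real, Real.norm_eq_abs, abs_le]
      constructor <;> linarith [hx.1, hx.2]) (3 * w1) (by linarith) (by
      intro ρ hρ hρ0
      rw [mem_closedBall, dist_eq_norm] at hρ
      have h2 := (abs_im_le_norm (ρ - ⟨1 + w1, t⟩)).trans hρ
      rw [sub_im] at h2
      have h3 := hzf ρ hρ0 h2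
      have h4 := (le_abs_self _).trans (abs_re_le_norm ((⟨x, t⟩ : ℂ) - ρ))
      rw [sub_re] at h4
      have h5 : (⟨x, t⟩ : ℂ).re = x := rfl
      rw [h5] at h4
      linarith [hx.1])
    refine ⟨h1, h2.trans ?_⟩
    have e1 : M * Q * (3 / 2) / (3 * w1) ≤ M * Q / w1 := by
      have : M * Q * (3 / 2) / (3 * w1) = 1 / 2 * (M * Q / w1) := by
        field_simp
        try norm_num
      rw [this]
      have : 0 < M * Q / w1 := by positivity
      linarith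
    have e2 : 24 * M * Q / θ ≤ 24 * M * Q / w1 :=
      div_le_div_of_nonneg_left (by positivity) hw0 (by linarith)
    have e3 : 25 * M * Q / w1 = M * Q / w1 + 24 * M * Q / w1 := by ring
    rw [e3]
    exact add_le_add e1 e2
  have hdf : ∀ x ∈ Set.Icc σ (1 + w1), DifferentiableAt ℂ L1 ⟨x, t⟩ := by
    intro x hx
    refine (hd1 ⟨x, t⟩ ?_).differentiableAt ((isOpen_reg _ _ _).mem_nhds ?_)
    all_goals
      refine ⟨?_, ?_⟩
      · show 1 - 4 * θ < x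
        linarith [hx.1]
      · show |t - t| < 4 * θ
        rw [sub_self, abs_zero]
        linarith
  have hg := grow hc.le hdf hseg
  obtain ⟨k1, k2⟩ := hright (1 + w1) le_rfl
  have k3 := (hseg σ ⟨le_rfl, hc.le⟩).1
  refine ⟨k3, ?_⟩
  have hexp2 : Real.exp (25 * M * Q / w1 * (1 + w1 - σ)) ≤ Real.exp (50 * M * Q) := by
    apply Real.exp_le_exp.2
    have h1 : 25 * M * Q / w1 * (1 + w1 - σ) ≤ 25 * M * Q / w1 * (2 * w1) :=
      mul_le_mul_of_nonneg_left (by linarith) (by positivity)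
    have h2 : 25 * M * Q / w1 * (2 * w1) = 50 * M * Q := by
      field_simp
      norm_num
    linarith
  have k4 : 0 < ‖L1 ⟨σ, t⟩‖ := norm_pos_iff.2 k3
  have k5 : 0 < ‖L1 ⟨1 + w1, t⟩‖ := norm_pos_iff.2 k1
  have k6 : ‖L1 ⟨1 + w1, t⟩‖ ≤ ‖L1 ⟨σ, t⟩‖ * Real.exp (50 * M * Q) :=
    hg.trans (mul_le_mul_of_nonneg_left hexp2 (norm_nonneg _))
  rw [norm_inv] at k2 ⊢
  have k7 : ‖L1 ⟨σ, t⟩‖⁻¹ ≤ Real.exp (50 * M * Q) * ‖L1 ⟨1 + w1, t⟩‖⁻¹ := by
    rw [inv_eq_one_div, div_le_iff₀ k4]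
    have h1 : Real.exp (50 * M * Q) * ‖L1 ⟨1 + w1, t⟩‖⁻¹ * ‖L1 ⟨σ, t⟩‖ =
        (‖L1 ⟨σ, t⟩‖ * Real.exp (50 * M * Q)) / ‖L1 ⟨1 + w1, t⟩‖ := by
      ring
    rw [h1, le_div_iff₀ k5, one_mul]
    exact k6
  refine k7.trans ?_
  calc Real.exp (50 * M * Q) * ‖L1 ⟨1 + w1, t⟩‖⁻¹ ≤ Real.exp (50 * M * Q) * Real.exp (M * Q) :=
        mul_le_mul_of_nonneg_left k2 (Real.exp_pos _).le
    _ = Real.exp (51 * M * Q) := by
      rw [← Real.exp_add]
      congr 1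
      ring
    _ ≤ _ := Real.exp_le_exp.2 (by
      have h1 : 0 < A * Q := by positivity
      have h2 : 0 < M * Q := by positivity
      nlinarith)

end Pool.Agent.N864.GN
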