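import Pool.Agent.N864.GN.MbB

/-!
# Project GN, subtask MB (helper864): the Moebius function in almost all narrow sectors, all classes, primitive
numbers coprime to `g`
-/

set_option autoImplicit false

namespace Pool.Agent.N864.GN

open Finset MeasureTheory
open Pool.Agent.N782.GN
open Pool.Agent.N546.GN.FTaux (gI gI_meas gI_per gI_abs sc_eq)

namespace MB

theorem dvd_ct (e : ℕ) (t : ZI) : ((e : ℕ) : ZI) ∣ t ↔ e ∣ ct t := by
  rw [nat_dvd_iff]
  unfold ct
  rw [Int.dvd_gcd_iff]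

theorem ct_pos {t : ZI} (ht : t ≠ 0) : 0 < ct t := by
  unfold ct
  rw [Int.gcd_pos_iff]
  by_contra hcon
  push Not at hcon
  exact ht (Zsqrtd.ext hcon.1 hcon.2)

theorem ct_le {t : ZI} (ht : t ≠ 0) {V : ℝ} (hV : nz t ≤ V) : ct t ≤ ⌊Real.sqrt V⌋₊ := by
  apply Nat.le_floor
  apply Real.le_sqrt_of_sq_le
  refine le_trans ?_ hV
  have h1 : ((ct t : ℕ) : ZI) ∣ t := (dvd_ct _ t).2 dvd_rfl
  obtain ⟨s, hs⟩ := h1
  have hs0 : s ≠ 0 := by
    rintro rfl
    rw [mul_zero] at hs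
    exact ht hs
  have h2 : nz t = nz ((ct t : ℕ) : ZI) * nz s := by
    conv_lhs => rw [hs]
    exact nz_mul _ _
  have h3 : nz ((ct t : ℕ) : ZI) = (ct t : ℝ) ^ 2 := by
    rw [nz_eq]
    simp
  rw [h2, h3]
  have := one_le_nz hs0
  nlinarith [sq_nonneg (ct t : ℝ)]

open Classical in
/-- Moebius inversion for the content -/
theorem be_eq {g : ℕ} {t : ZI} (ht : t ≠ 0) {V : ℝ} (hV : nz t ≤ V) : be g t =
    ∑ e ∈ Icc 1 ⌊Real.sqrt V⌋₊, ((ArithmeticFunction.moebius e : ℤ) : ℝ) *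
      (if IsCoprime t ((g : ℕ) : ZI) ∧ ((e : ℕ) : ZI) ∣ t then mu t else 0) := by
  by_cases hg : IsCoprime t ((g : ℕ) : ZI)
  · have h1 : ∀ e ∈ Icc 1 ⌊Real.sqrt V⌋₊, ((ArithmeticFunction.moebius e : ℤ) : ℝ) *
        (if IsCoprime t ((g : ℕ) : ZI) ∧ ((e : ℕ) : ZI) ∣ t then mu t else 0) =
        (if e ∣ ct t then ((ArithmeticFunction.moebius e : ℤ) : ℝ) * mu t else 0) := by
      intro e _
      by_cases he : e ∣ ct t
      · rw [if_pos he, if_pos ⟨hg, (dvd_ct e t).2 he⟩]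
      · rw [if_neg he, if_neg (fun h => he ((dvd_ct e t).1 h.2)), mul_zero]
    rw [Finset.sum_congr rfl h1, ← Finset.sum_filter]
    have h2 : (Icc 1 ⌊Real.sqrt V⌋₊).filter (fun e => e ∣ ct t) = (ct t).divisors := by
      ext e
      rw [mem_filter, mem_Icc, Nat.mem_divisors]
      constructor
      · rintro ⟨-, h⟩
        exact ⟨h, (ct_pos ht).ne'⟩
      · rintro ⟨h, -⟩
        have h3 := Nat.le_of_dvd (ct_pos ht) h
        exact ⟨⟨Nat.pos_of_dvd_of_pos h (ct_pos ht), h3.trans (ct_le ht hV)⟩, h⟩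
    rw [h2, ← Finset.sum_mul]
    have h3 : ∑ e ∈ (ct t).divisors, ((ArithmeticFunction.moebius e : ℤ) : ℝ) =
        if ct t = 1 then 1 else 0 := by
      have h4 := congrArg (fun f : ArithmeticFunction ℤ => f (ct t)) ArithmeticFunction.moebius_mul_coe_zeta
      simp only [ArithmeticFunction.coe_mul_zeta_apply, ArithmeticFunction.one_apply] at h4
      have h5 : ((∑ e ∈ (ct t).divisors, ArithmeticFunction.moebius e : ℤ) : ℝ) =
        (((if ct t = 1 then 1 else 0) : ℤ) : ℝ) := by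
        rw [← h4]
      push_cast at h5
      rw [h5]
    rw [h3]
    unfold be
    by_cases hc : ct t = 1
    · rw [if_pos ⟨hc, hg⟩, if_pos hc, one_mul]
    · rw [if_neg (fun h => hc h.1), if_neg hc, zero_mul]
  · unfold be
    rw [if_neg (fun h => hg h.2)]
    symm
    apply Finset.sum_eq_zero
    intro e _
    rw [if_neg (fun h => hg h.1), mul_zero]

theorem abs_moeb (e : ℕ) : |((ArithmeticFunction.moebius e : ℤ) : ℝ)| ≤ 1 := by
  have := ArithmeticFunction.abs_moebius_le_one (n := e)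
  exact_mod_cast this

open Classical in
/-- numbers divisible by `e` in a sector -/
theorem cnt_e {δ x V : ℝ} (hδ : 0 < δ) (hV : 0 ≤ V) {e : ℕ} (he : 1 ≤ e) (heV : (e : ℝ) ≤ Real.sqrt V) :
    (((bl V).filter (fun t => ((e : ℕ) : ZI) ∣ t ∧ sc δ x t ≠ 0)).card : ℝ) ≤
      6 * (δ * V) * ((e : ℝ) ^ 2)⁻¹ + 3 * Real.sqrt V * (e : ℝ)⁻¹ := by
  have he0 : (0 : ℝ) < e := by exact_mod_cast he
  have heZ : ((e : ℕ) : ZI) ≠ 0 := by
    have : (e : ZI) ≠ 0 := Nat.cast_ne_zero.2 (by omega)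
    exact this
  have hne : nz ((e : ℕ) : ZI) = (e : ℝ) ^ 2 := by
    rw [nz_eq]
    simp
  have harg : Complex.arg ((((e : ℕ) : ZI)) : ℂ) = 0 := by
    have h1 : ((((e : ℕ) : ZI)) : ℂ) = ((e : ℝ) : ℂ) := by
      simp
    rw [h1]
    exact Complex.arg_ofReal_of_nonneg he0.le
  have hsub : (bl V).filter (fun t => ((e : ℕ) : ZI) ∣ t ∧ sc δ x t ≠ 0) ⊆
      ((bl (V / (e : ℝ) ^ 2)).filter (fun s => sc δ x s ≠ 0)).image (fun s => ((e : ℕ) : ZI) * s) := by
    intro t ht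
    rw [mem_filter, mem_bl] at ht
    obtain ⟨⟨h1, h2⟩, ⟨s, rfl⟩, h3⟩ := ht
    have hs0 : s ≠ 0 := by
      rintro rfl
      exact h1 (mul_zero _)
    rw [mem_image]
    refine ⟨s, ?_, rfl⟩
    rw [mem_filter, mem_bl]
    rw [sc_mul δ x heZ hs0, harg, sub_zero] at h3
    rw [nz_mul, hne] at h2
    refine ⟨⟨hs0, ?_⟩, h3⟩
    rw [le_div_iff₀ (by positivity)]
    linarith
  have h1 := (Finset.card_le_card hsub).trans Finset.card_image_le
  have h2 := cnt_sector (δ := δ) (x := x) (X := V / (e : ℝ) ^ 2) hδ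
  have h3 : Real.sqrt (V / (e : ℝ) ^ 2) = Real.sqrt V / e := by
    rw [Real.sqrt_div hV, Real.sqrt_sq he0.le]
  rw [h3] at h2
  have h4 : 1 ≤ Real.sqrt V / e := by
    rw [le_div_iff₀ he0]
    linarith
  have h5 : (Real.sqrt V) ^ 2 = V := Real.sq_sqrt hV
  have h6 : 6 * (δ * V) * ((e : ℝ) ^ 2)⁻¹ + 3 * Real.sqrt V * (e : ℝ)⁻¹ =
      3 * (Real.sqrt V / e) * (2 * (Real.sqrt V / e * δ) + 1) := by
    conv_lhs => rw [← h5]
    have : Real.sqrt ((Real.sqrt V) ^ 2) = Real.sqrt V := Real.sqrt_sq (Real.sqrt_nonneg _)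
    rw [this]
    field_simp
    ring
  rw [h6]
  refine le_trans (Nat.cast_le.2 h1) (h2.trans ?_)
  apply mul_le_mul_of_nonneg_right _ (by positivity)
  linarith

theorem abs_be_le (g : ℕ) (t : ZI) : |be g t| ≤ 1 := by
  unfold be
  split_ifs
  · exact abs_mu_le t
  · simp

/-- the logarithms -/
theorem log_pow_le (ε : ℝ) (A : ℕ) (hε : 0 < ε) : ∃ C : ℝ, 0 < C ∧ ∀ V : ℝ, 3 ≤ V →
    (1 + Real.log V) * (Real.log V) ^ A ≤ C * V ^ ε := by
  refine ⟨2 * ((A + 1) / ε) ^ (A + 1), by positivity, ?_⟩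
  intro V hV
  have h1 : 1 ≤ Real.log V := by
    rw [Real.le_log_iff_exp_le (by linarith)]
    have := Real.exp_one_lt_d9
    linarith
  have h2 := Real.log_le_rpow_div (x := V) (by linarith) (show 0 < ε / (A + 1) by positivity)
  have h3 := pow_le_pow_left₀ (by linarith) h2 (A + 1)
  have h4 : (V ^ (ε / (A + 1)) / (ε / (A + 1))) ^ (A + 1) = ((A + 1) / ε) ^ (A + 1) * V ^ ε := by
    have h5 : V ^ (ε / (A + 1)) / (ε / (A + 1)) = ((A + 1) / ε) * V ^ (ε / (A + 1)) := by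
      field_simp
    rw [h5, mul_pow, ← Real.rpow_natCast (V ^ (ε / (A + 1))), ← Real.rpow_mul (by linarith)]
    congr 2
    push_cast
    field_simp
  rw [h4] at h3
  have h5 : (1 + Real.log V) * (Real.log V) ^ A ≤ 2 * (Real.log V) ^ (A + 1) := by
    rw [pow_succ]
    have h6 : 0 ≤ (Real.log V) ^ A := by positivity
    nlinarith
  linarith

open Classical in
/-- the bound for small `V` -/
theorem small {g q A : ℕ} {r : ZI} {ε V δ Y1 Y2 : ℝ} (hε : 0 < ε) (h2 : 2 ≤ V) (h3 : V < 3)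
    (hδ : V ^ (-(1 / 2) + ε : ℝ) ≤ δ) (hY : Y2 ≤ V) :
    ∫ x in (0 : ℝ)..(2 * Real.pi), (fS δ ((cls q r Y2).filter (fun t => Y1 < nz t)) (be g) x) ^ 2 ≤
      (2 * Real.pi * ((bl 3).card : ℝ) ^ 2 * 2 ^ A) * δ ^ 2 * V ^ 2 / (Real.log V) ^ A := by
  set S := (cls q r Y2).filter (fun t => Y1 < nz t) with hS
  have hcard : (S.card : ℝ) ≤ ((bl 3).card : ℝ) := by
    have h4 : S ⊆ bl 3 := by
      intro t ht
      rw [hS, mem_filter] at ht
      unfold cls at ht
      rw [mem_filter, mem_bl] at ht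
      rw [mem_bl]
      exact ⟨ht.1.1.1, by linarith [ht.1.1.2]⟩
    exact_mod_cast Finset.card_le_card h4
  have hb : ∀ x, |fS δ S (be g) x| ≤ ((bl 3).card : ℝ) := by
    intro x
    refine (fS_bd δ S (be g) x).trans (le_trans ?_ hcard)
    calc ∑ t ∈ S, |be g t| ≤ ∑ t ∈ S, (1 : ℝ) := Finset.sum_le_sum fun t _ => abs_be_le g t
      _ = (S.card : ℝ) := by simp
  have h1 : ∫ x in (0 : ℝ)..(2 * Real.pi), (fS δ S (be g) x) ^ 2 ≤
      ∫ x in (0 : ℝ)..(2 * Real.pi), ((bl 3).card : ℝ) ^ 2 := by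
    apply intervalIntegral.integral_mono_on (by positivity)
    · exact ii_sq (fS_meas _ _ _) hb _ _
    · exact intervalIntegrable_const
    · intro x _
      rw [← sq_abs]
      exact pow_le_pow_left₀ (abs_nonneg _) (hb x) 2
  refine h1.trans ?_
  rw [intervalIntegral.integral_const, sub_zero, smul_eq_mul]
  have hlog0 : 0 < Real.log V := Real.log_pos (by linarith)
  have hlog : Real.log V ≤ 2 := by
    have := Real.log_le_sub_one_of_pos (show (0 : ℝ) < V by linarith)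
    linarith
  have hlogA : (Real.log V) ^ A ≤ 2 ^ A := pow_le_pow_left₀ hlog0.le hlog A
  have hδ1 : 1 ≤ δ ^ 2 * V ^ 2 := by
    have h5 : V ^ (-(1 / 2) : ℝ) ≤ δ := by
      refine le_trans ?_ hδ
      apply Real.rpow_le_rpow_of_exponent_le (by linarith)
      linarith
    have h6 : 0 < V ^ (-(1 / 2) : ℝ) := Real.rpow_pos_of_pos (by linarith) _
    have h7 : (V ^ (-(1 / 2) : ℝ)) ^ 2 = 1 / V := by
      rw [← Real.rpow_natCast, ← Real.rpow_mul (by linarith)]
      norm_num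
      rw [Real.rpow_neg_one]
    have h8 : 1 / V ≤ δ ^ 2 := by
      rw [← h7]
      exact pow_le_pow_left₀ h6.le h5 2
    rw [div_le_iff₀ (by linarith)] at h8
    have h9 : 0 ≤ δ ^ 2 := sq_nonneg δ
    nlinarith
  rw [le_div_iff₀ (by positivity)]
  have hN : 0 ≤ 2 * Real.pi * ((bl 3).card : ℝ) ^ 2 := by positivity
  calc 2 * Real.pi * ((bl 3).card : ℝ) ^ 2 * (Real.log V) ^ A ≤
      2 * Real.pi * ((bl 3).card : ℝ) ^ 2 * 2 ^ A := mul_le_mul_of_nonneg_left hlogA hN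
    _ = 2 * Real.pi * ((bl 3).card : ℝ) ^ 2 * 2 ^ A * 1 := (mul_one _).symm
    _ ≤ 2 * Real.pi * ((bl 3).card : ℝ) ^ 2 * 2 ^ A * (δ ^ 2 * V ^ 2) :=
      mul_le_mul_of_nonneg_left hδ1 (by positivity)
    _ = _ := by ring

end MB

open MB

theorem mb (hm : S_MUB) (h : S_MB1) : S_MB := by
  classical
  intro ε A B hε
  obtain ⟨C1, hC1, h1⟩ := mb1g hm h ε (A + 2 * A + 4 * (2 * B + A)) (2 * B + A) hε
  obtain ⟨C3, hC3, h3⟩ := log_pow_le ε A hε
  refine ⟨2 * C1 + 4 * Real.pi * (12 + 3 * C3) ^ 2 + 2 * Real.pi * ((bl 3).card : ℝ) ^ 2 * 2 ^ A,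
    by positivity, ?_⟩
  intro V δ Y1 Y2 q g r hV hδ1 hδ2 hY1 hY2 hY3 hq1 hq2 hg1 hg2
  have hlog0 : 0 < Real.log V := Real.log_pos (by linarith)
  have hV0 : 0 < V := by linarith
  have hδ0 : 0 < δ := lt_of_lt_of_le (Real.rpow_pos_of_pos hV0 _) hδ1
  rcases lt_or_ge V 3 with hV3 | hV3
  · have h4 := small (g := g) (q := q) (A := A) (r := r) (Y1 := Y1) hε hV hV3 hδ1 hY3
    refine le_trans h4 ?_
    apply div_le_div_of_nonneg_right _ (by positivity)
    apply mul_le_mul_of_nonneg_right _ (by positivity)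
    apply mul_le_mul_of_nonneg_right _ (by positivity)
    have : 0 ≤ 2 * C1 + 4 * Real.pi * (12 + 3 * C3) ^ 2 := by positivity
    linarith
  have hlog1 : 1 ≤ Real.log V := by
    rw [Real.le_log_iff_exp_le (by linarith)]
    have := Real.exp_one_lt_d9
    linarith
  set Lg : ℝ := Real.log V with hLg
  set N : ℕ := ⌊Real.sqrt V⌋₊ with hN
  set E0 : ℕ := ⌊Lg ^ A⌋₊ with hE0
  have hLA : 1 ≤ Lg ^ A := one_le_pow₀ hlog1
  have hE0le : (E0 : ℝ) ≤ Lg ^ A := Nat.floor_le (by positivity)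
  have hE01 : 1 ≤ E0 := Nat.le_floor (by simpa using hLA)
  have hE0ge : Lg ^ A / 2 ≤ (E0 : ℝ) := by
    have h4 := Nat.lt_floor_add_one (Lg ^ A)
    have h5 : (1 : ℝ) ≤ E0 := by exact_mod_cast hE01
    linarith
  -- the pieces
  obtain ⟨P, hP⟩ : ∃ P : ℕ → ZI → Prop, ∀ e t, P e t ↔ (((q : ℕ) : ZI) ∣ t - r ∧
    IsCoprime t ((g : ℕ) : ZI) ∧ ((e : ℕ) : ZI) ∣ t) := ⟨_, fun e t => Iff.rfl⟩
  set Fe : ℕ → ℝ → ℝ := fun e x => ((ArithmeticFunction.moebius e : ℤ) : ℝ) *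
    fS δ ((bl Y2).filter (fun t => Y1 < nz t ∧ P e t)) mu x with hFe
  have hdec : ∀ x, fS δ ((cls q r Y2).filter (fun t => Y1 < nz t)) (be g) x =
      ∑ e ∈ Icc 1 N, Fe e x := by
    intro x
    have h5 : ∀ t ∈ (cls q r Y2).filter (fun t => Y1 < nz t), be g t * sc δ x t =
        ∑ e ∈ Icc 1 N, ((ArithmeticFunction.moebius e : ℤ) : ℝ) *
          (if IsCoprime t ((g : ℕ) : ZI) ∧ ((e : ℕ) : ZI) ∣ t then mu t else 0) * sc δ x t := by
      intro t ht
      rw [mem_filter] at ht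
      unfold cls at ht
      rw [mem_filter, mem_bl] at ht
      rw [be_eq ht.1.1.1 (ht.1.1.2.trans hY3), Finset.sum_mul]
    unfold fS
    rw [Finset.sum_congr rfl h5, Finset.sum_comm]
    refine Finset.sum_congr rfl fun e _ => ?_
    rw [hFe]
    unfold fS
    simp only
    rw [Finset.mul_sum]
    have e1 : (bl Y2).filter (fun t => Y1 < nz t ∧ P e t) =
        ((cls q r Y2).filter (fun t => Y1 < nz t)).filter
          (fun t => IsCoprime t ((g : ℕ) : ZI) ∧ ((e : ℕ) : ZI) ∣ t) := by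
      ext t
      unfold cls
      simp only [mem_filter, hP]
      tauto
    rw [e1, Finset.sum_filter (fun t => IsCoprime t ((g : ℕ) : ZI) ∧ ((e : ℕ) : ZI) ∣ t)]
    refine Finset.sum_congr rfl fun t _ => ?_
    split_ifs <;> ring
  have hFm : ∀ e, Measurable (Fe e) := fun e => (fS_meas _ _ _).const_mul _
  have hFb : ∀ e x, |Fe e x| ≤ ∑ t ∈ (bl Y2).filter (fun t => Y1 < nz t ∧ P e t), |mu t| := by
    intro e x
    rw [hFe]
    simp only
    rw [abs_mul]
    exact (mul_le_of_le_one_left (abs_nonneg _) (abs_moeb e)).trans (fS_bd _ _ _ _)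
  -- small e
  have hsmall : ∫ x in (0 : ℝ)..(2 * Real.pi), (∑ e ∈ (Icc 1 N).filter (fun e => e ≤ E0), Fe e x) ^ 2 ≤
      C1 * δ ^ 2 * V ^ 2 / Lg ^ A := by
    have h5 := int_sum_sq ((Icc 1 N).filter (fun e => e ≤ E0)) Fe (fun e _ => hFm e)
      (fun e _ => hFb e) (E := C1 * δ ^ 2 * V ^ 2 / Lg ^ (A + 2 * A)) (by
      intro e he
      rw [mem_filter, mem_Icc] at he
      have hQ1 : 1 ≤ q * g * e := Nat.one_le_iff_ne_zero.2 (by
        have := he.1.1
        positivity)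
      have heL : (e : ℝ) ≤ Lg ^ A := le_trans (by exact_mod_cast he.2) hE0le
      have hQ2 : ((q * g * e : ℕ) : ℝ) ≤ Lg ^ (2 * B + A) := by
        push_cast
        calc (q : ℝ) * g * e ≤ Lg ^ B * Lg ^ B * Lg ^ A := by gcongr
          _ = Lg ^ (2 * B + A) := by
            rw [← pow_add, ← pow_add]
            congr 1
            ring
      have hper : ∀ s t : ZI, ((q * g * e : ℕ) : ZI) ∣ s - t → (P e s ↔ P e t) := by
        have key : ∀ s t : ZI, ((q * g * e : ℕ) : ZI) ∣ s - t → P e s → P e t := by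
          intro s t hst hs
          rw [hP] at hs ⊢
          obtain ⟨k, hk⟩ := hst
          push_cast at hk
          obtain ⟨⟨k1, hk1⟩, h6, ⟨k2, hk2⟩⟩ := hs
          refine ⟨⟨k1 - g * e * k, ?_⟩, ?_, ⟨k2 - q * g * k, ?_⟩⟩
          · linear_combination hk1 - hk
          · have h7 : t = s + ((g : ℕ) : ZI) * (-(q * e * k)) := by linear_combination -hk
            rw [h7]
            exact (IsCoprime.add_mul_left_left_iff).2 h6
          · linear_combination hk2 - hk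
        intro s t hst
        refine ⟨key s t hst, key t s ?_⟩
        have := (dvd_neg).2 hst
        rwa [neg_sub] at this
      have h6 := int_split hQ1 (P e) hper δ Y1 Y2 mu
        (E := C1 * δ ^ 2 * V ^ 2 / Lg ^ (A + 2 * A + 4 * (2 * B + A))) (by positivity)
        (fun r' _ => h1 V δ Y1 Y2 (q * g * e) r' hV hδ1 hδ2 hY1 hY2 hY3 hQ1 hQ2)
      have h7 : ∫ x in (0 : ℝ)..(2 * Real.pi), (Fe e x) ^ 2 ≤ ∫ x in (0 : ℝ)..(2 * Real.pi),
          (fS δ ((bl Y2).filter (fun t => Y1 < nz t ∧ P e t)) mu x) ^ 2 := by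
        apply intervalIntegral.integral_mono_on (by positivity)
        · exact ii_sq (hFm e) (hFb e) _ _
        · exact ii_sq (fS_meas _ _ _) (fS_bd _ _ _) _ _
        · intro x _
          rw [hFe]
          simp only
          rw [mul_pow]
          refine mul_le_of_le_one_left (sq_nonneg _) ?_
          rw [← sq_abs]
          exact pow_le_one₀ (abs_nonneg _) (abs_moeb e)
      refine h7.trans (h6.trans ?_)
      have hQ4 : ((q * g * e : ℕ) : ℝ) ^ 4 ≤ Lg ^ (4 * (2 * B + A)) := by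
        have := pow_le_pow_left₀ (Nat.cast_nonneg (q * g * e)) hQ2 4
        rwa [← pow_mul, mul_comm (2 * B + A) 4] at this
      calc ((q * g * e : ℕ) : ℝ) ^ 4 * (C1 * δ ^ 2 * V ^ 2 / Lg ^ (A + 2 * A + 4 * (2 * B + A))) ≤
          Lg ^ (4 * (2 * B + A)) * (C1 * δ ^ 2 * V ^ 2 / Lg ^ (A + 2 * A + 4 * (2 * B + A))) :=
            mul_le_mul_of_nonneg_right hQ4 (by positivity)
        _ = C1 * δ ^ 2 * V ^ 2 / Lg ^ (A + 2 * A) := by
          rw [pow_add Lg (A + 2 * A)]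
          field_simp)
    refine h5.trans ?_
    have h6 : ((((Icc 1 N).filter (fun e => e ≤ E0)).card : ℕ) : ℝ) ≤ Lg ^ A := by
      refine le_trans ?_ hE0le
      have h7 : (Icc 1 N).filter (fun e => e ≤ E0) ⊆ Icc 1 E0 := by
        intro e he
        rw [mem_filter, mem_Icc] at he
        rw [mem_Icc]
        exact ⟨he.1.1, he.2⟩
      have h8 := Finset.card_le_card h7
      rw [Nat.card_Icc] at h8
      exact_mod_cast h8.trans (by omega)
    have h7 : ((((Icc 1 N).filter (fun e => e ≤ E0)).card : ℕ) : ℝ) ^ 2 ≤ Lg ^ (2 * A) := by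
      have := pow_le_pow_left₀ (Nat.cast_nonneg _) h6 2
      rwa [← pow_mul, mul_comm A 2] at this
    calc ((((Icc 1 N).filter (fun e => e ≤ E0)).card : ℕ) : ℝ) ^ 2 *
        (C1 * δ ^ 2 * V ^ 2 / Lg ^ (A + 2 * A)) ≤ Lg ^ (2 * A) *
        (C1 * δ ^ 2 * V ^ 2 / Lg ^ (A + 2 * A)) := mul_le_mul_of_nonneg_right h7 (by positivity)
      _ = C1 * δ ^ 2 * V ^ 2 / Lg ^ A := by
        rw [pow_add]
        field_simp
  -- large e
  set Ψ : ℝ := δ * V / Lg ^ A with hΨ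
  have hΨ0 : 0 < Ψ := by positivity
  have hlarge : ∀ x, |∑ e ∈ (Icc 1 N).filter (fun e => ¬ e ≤ E0), Fe e x| ≤ (12 + 3 * C3) * Ψ := by
    intro x
    have h5 : ∀ e ∈ (Icc 1 N).filter (fun e => ¬ e ≤ E0), |Fe e x| ≤
        6 * (δ * V) * ((e : ℝ) ^ 2)⁻¹ + 3 * Real.sqrt V * (e : ℝ)⁻¹ := by
      intro e he
      rw [mem_filter, mem_Icc] at he
      refine le_trans ?_ (cnt_e (x := x) hδ0 hV0.le he.1.1
        ((Nat.le_floor_iff (Real.sqrt_nonneg V)).1 he.1.2))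
      rw [hFe]
      simp only
      rw [abs_mul]
      refine (mul_le_of_le_one_left (abs_nonneg _) (abs_moeb e)).trans ?_
      unfold fS
      refine (Finset.abs_sum_le_sum_abs _ _).trans ?_
      have h6 : ∑ t ∈ (bl Y2).filter (fun t => Y1 < nz t ∧ P e t), |mu t * sc δ x t| ≤
          ∑ t ∈ (bl Y2).filter (fun t => Y1 < nz t ∧ P e t), (if sc δ x t ≠ 0 then (1 : ℝ) else 0) := by
        refine Finset.sum_le_sum fun t _ => ?_
        rw [abs_mul]
        split_ifs with h7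
        · calc |mu t| * |sc δ x t| ≤ 1 * 1 := mul_le_mul (abs_mu_le t) (sc_abs _ _ _) (abs_nonneg _)
                zero_le_one
            _ = 1 := one_mul 1
        · push Not at h7
          rw [h7, abs_zero, mul_zero]
      refine h6.trans ?_
      rw [← Finset.sum_filter, Finset.sum_const, nsmul_eq_mul, mul_one]
      have h7 : ((bl Y2).filter (fun t => Y1 < nz t ∧ P e t)).filter (fun t => sc δ x t ≠ 0) ⊆
          (bl V).filter (fun t => ((e : ℕ) : ZI) ∣ t ∧ sc δ x t ≠ 0) := by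
        intro t ht
        simp only [mem_filter, mem_bl, hP] at ht ⊢
        exact ⟨⟨ht.1.1.1, ht.1.1.2.trans hY3⟩, ht.1.2.2.2.2, ht.2⟩
      exact_mod_cast Finset.card_le_card h7
    refine (Finset.abs_sum_le_sum_abs _ _).trans ((Finset.sum_le_sum h5).trans ?_)
    rw [Finset.sum_add_distrib, ← Finset.mul_sum, ← Finset.mul_sum]
    have h6 : ∑ e ∈ (Icc 1 N).filter (fun e => ¬ e ≤ E0), ((e : ℝ) ^ 2)⁻¹ ≤ 2 / Lg ^ A := by
      have h7 : (Icc 1 N).filter (fun e => ¬ e ≤ E0) ⊆ Ioc E0 (E0 + N) := by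
        intro e he
        rw [mem_filter, mem_Icc] at he
        rw [mem_Ioc]
        omega
      refine (Finset.sum_le_sum_of_subset_of_nonneg h7 (fun _ _ _ => by positivity)).trans ?_
      have h8 := sum_Ioc_inv_sq_le_sub (α := ℝ) (k := E0) (n := E0 + N) (by omega) (by omega)
      refine h8.trans ?_
      have h9 : (0 : ℝ) ≤ (((E0 + N : ℕ) : ℝ))⁻¹ := by positivity
      have h10 : (E0 : ℝ)⁻¹ ≤ 2 / Lg ^ A := by
        rw [inv_eq_one_div, div_le_div_iff₀ (by exact_mod_cast hE01) (by positivity)]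
        linarith
      linarith
    have h7 : ∑ e ∈ (Icc 1 N).filter (fun e => ¬ e ≤ E0), (e : ℝ)⁻¹ ≤ 1 + Lg := by
      refine (Finset.sum_le_sum_of_subset_of_nonneg (Finset.filter_subset _ _)
        (fun _ _ _ => by positivity)).trans ?_
      have h8 := harmonic_le_one_add_log N
      rw [harmonic_eq_sum_Icc] at h8
      push_cast at h8
      refine h8.trans ?_
      have h9 : Real.log (N : ℝ) ≤ Lg := by
        rcases Nat.eq_zero_or_pos N with h10 | h10
        · rw [h10, Nat.cast_zero, Real.log_zero]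
          linarith
        · apply Real.log_le_log (by exact_mod_cast h10)
          have h11 : (N : ℝ) ≤ Real.sqrt V := Nat.floor_le (Real.sqrt_nonneg V)
          have h12 : Real.sqrt V ≤ V := by
            rw [Real.sqrt_le_left (by linarith)]
            nlinarith
          linarith
      linarith
    have h8 : Real.sqrt V * (1 + Lg) ≤ C3 * Ψ := by
      have h9 := h3 V hV3
      rw [← hLg] at h9
      have h10 : V ^ ε ≤ δ * Real.sqrt V := by
        have h11 : V ^ (-(1 / 2) + ε : ℝ) * Real.sqrt V ≤ δ * Real.sqrt V :=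
          mul_le_mul_of_nonneg_right hδ1 (Real.sqrt_nonneg V)
        refine le_trans (le_of_eq ?_) h11
        rw [Real.sqrt_eq_rpow, ← Real.rpow_add hV0]
        congr 1
        ring
      have h12 : (1 + Lg) * Lg ^ A ≤ C3 * (δ * Real.sqrt V) :=
        h9.trans (mul_le_mul_of_nonneg_left h10 hC3.le)
      have h13 : Real.sqrt V * Real.sqrt V = V := Real.mul_self_sqrt hV0.le
      rw [hΨ, ← mul_div_assoc, le_div_iff₀ (by positivity)]
      calc Real.sqrt V * (1 + Lg) * Lg ^ A = Real.sqrt V * ((1 + Lg) * Lg ^ A) := by ring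
        _ ≤ Real.sqrt V * (C3 * (δ * Real.sqrt V)) :=
          mul_le_mul_of_nonneg_left h12 (Real.sqrt_nonneg V)
        _ = C3 * (δ * (Real.sqrt V * Real.sqrt V)) := by ring
        _ = C3 * (δ * V) := by rw [h13]
    have h9 : 6 * (δ * V) * ∑ e ∈ (Icc 1 N).filter (fun e => ¬ e ≤ E0), ((e : ℝ) ^ 2)⁻¹ ≤ 12 * Ψ := by
      calc 6 * (δ * V) * ∑ e ∈ (Icc 1 N).filter (fun e => ¬ e ≤ E0), ((e : ℝ) ^ 2)⁻¹ ≤
          6 * (δ * V) * (2 / Lg ^ A) := mul_le_mul_of_nonneg_left h6 (by positivity)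
        _ = 12 * Ψ := by
          rw [hΨ]
          ring
    have h10 : 3 * Real.sqrt V * ∑ e ∈ (Icc 1 N).filter (fun e => ¬ e ≤ E0), (e : ℝ)⁻¹ ≤
        3 * (C3 * Ψ) := by
      calc 3 * Real.sqrt V * ∑ e ∈ (Icc 1 N).filter (fun e => ¬ e ≤ E0), (e : ℝ)⁻¹ ≤
          3 * Real.sqrt V * (1 + Lg) := mul_le_mul_of_nonneg_left h7 (by positivity)
        _ = 3 * (Real.sqrt V * (1 + Lg)) := by ring
        _ ≤ 3 * (C3 * Ψ) := by linarith
    linarith
  -- conclusion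
  have hgoal : ∫ x in (0 : ℝ)..(2 * Real.pi), (fS δ ((cls q r Y2).filter (fun t => Y1 < nz t)) (be g) x) ^ 2 ≤
      2 * (C1 * δ ^ 2 * V ^ 2 / Lg ^ A) + 4 * Real.pi * ((12 + 3 * C3) * Ψ) ^ 2 := by
    have hAm : Measurable (fun x => ∑ e ∈ (Icc 1 N).filter (fun e => e ≤ E0), Fe e x) :=
      Finset.measurable_sum _ fun e _ => hFm e
    have hAb : ∀ x, |∑ e ∈ (Icc 1 N).filter (fun e => e ≤ E0), Fe e x| ≤
        ∑ e ∈ (Icc 1 N).filter (fun e => e ≤ E0),
          ∑ t ∈ (bl Y2).filter (fun t => Y1 < nz t ∧ P e t), |mu t| := fun x =>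
      (Finset.abs_sum_le_sum_abs _ _).trans (Finset.sum_le_sum fun e _ => hFb e x)
    have h5 : ∫ x in (0 : ℝ)..(2 * Real.pi),
        (fS δ ((cls q r Y2).filter (fun t => Y1 < nz t)) (be g) x) ^ 2 ≤
        ∫ x in (0 : ℝ)..(2 * Real.pi),
          (2 * (∑ e ∈ (Icc 1 N).filter (fun e => e ≤ E0), Fe e x) ^ 2 + 2 * ((12 + 3 * C3) * Ψ) ^ 2) := by
      apply intervalIntegral.integral_mono_on (by positivity)
      · exact ii_sq (fS_meas _ _ _) (fS_bd _ _ _) _ _
      · exact ((ii_sq hAm hAb _ _).const_mul 2).add intervalIntegrable_const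
      · intro x _
        rw [hdec x, ← Finset.sum_filter_add_sum_filter_not (Icc 1 N) (fun e => e ≤ E0)]
        have h6 := hlarge x
        have h7 : (∑ e ∈ (Icc 1 N).filter (fun e => ¬ e ≤ E0), Fe e x) ^ 2 ≤
            ((12 + 3 * C3) * Ψ) ^ 2 := by
          rw [← sq_abs]
          exact pow_le_pow_left₀ (abs_nonneg _) h6 2
        nlinarith [sq_nonneg ((∑ e ∈ (Icc 1 N).filter (fun e => e ≤ E0), Fe e x) -
          ∑ e ∈ (Icc 1 N).filter (fun e => ¬ e ≤ E0), Fe e x)]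
    refine h5.trans ?_
    rw [intervalIntegral.integral_add ((ii_sq hAm hAb _ _).const_mul 2) intervalIntegrable_const,
      intervalIntegral.integral_const_mul, intervalIntegral.integral_const, sub_zero, smul_eq_mul]
    have e1 : 2 * Real.pi * (2 * ((12 + 3 * C3) * Ψ) ^ 2) = 4 * Real.pi * ((12 + 3 * C3) * Ψ) ^ 2 := by
      ring
    rw [e1]
    linarith
  have hΨ2 : Ψ ^ 2 ≤ δ ^ 2 * V ^ 2 / Lg ^ A := by
    rw [hΨ, div_pow, mul_pow]
    apply div_le_div_of_nonneg_left (by positivity) (by positivity)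
    nlinarith
  show ∫ x in (0 : ℝ)..(2 * Real.pi), (fS δ ((cls q r Y2).filter (fun t => Y1 < nz t)) (be g) x) ^ 2 ≤ _
  refine hgoal.trans ?_
  have h5 : 0 ≤ δ ^ 2 * V ^ 2 / Lg ^ A := by positivity
  have h6 : 0 ≤ 2 * Real.pi * ((bl 3).card : ℝ) ^ 2 * 2 ^ A := by positivity
  have h7 : 4 * Real.pi * ((12 + 3 * C3) * Ψ) ^ 2 ≤
      4 * Real.pi * (12 + 3 * C3) ^ 2 * (δ ^ 2 * V ^ 2 / Lg ^ A) := by
    rw [mul_pow, ← mul_assoc]
    exact mul_le_mul_of_nonneg_left hΨ2 (by positivity)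
  calc 2 * (C1 * δ ^ 2 * V ^ 2 / Lg ^ A) + 4 * Real.pi * ((12 + 3 * C3) * Ψ) ^ 2 ≤
      2 * (C1 * δ ^ 2 * V ^ 2 / Lg ^ A) + 4 * Real.pi * (12 + 3 * C3) ^ 2 * (δ ^ 2 * V ^ 2 / Lg ^ A) +
        2 * Real.pi * ((bl 3).card : ℝ) ^ 2 * 2 ^ A * (δ ^ 2 * V ^ 2 / Lg ^ A) := by
        have := mul_nonneg h6 h5
        linarith
    _ = _ := by ring

end Pool.Agent.N864.GN
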