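import Pool.Agent.H304R3.HK.LamH
import Pool.Agent.H304R3.HK.LogDerH
import Pool.Agent.H304R3.HK.LgB
import Pool.Agent.H304R3.HK.NzrHof
import Pool.Agent.N782.GN.StmV

/-!
# Project GN, subtask INVL: the Dirichlet series of `h` to the right of the line `Re s = 1` (helper864)
-/

set_option autoImplicit false

namespace Pool.Agent.N864.GN

open Pool.Agent.N782.GN
open Pool.Agent.H304R3.HK
open Finset Filter Topology Complex
open ArithmeticFunction (vonMangoldt)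
open ArithmeticFunction.vonMangoldt
open Pool.Agent.H304R2.EC (summable_term LSeries_eq_tsum)

/-- a series with coefficients bounded by the divisor function -/
lemma summ_dv {f : ℕ → ℂ} (hf : ∀ n : ℕ, ‖f n‖ ≤ n.divisors.card) {s : ℂ} (hs : 1 < s.re) :
    LSeriesSummable f s := by
  have h1 : LSeriesSummable (1 : ℕ → ℂ) s := LSeriesSummable_one_iff.2 hs
  have h2 := LSeriesSummable.convolution h1 h1
  refine Summable.of_norm_bounded h2.norm fun n => LSeries.norm_term_le s ?_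
  have h3 : (LSeries.convolution 1 1 : ℕ → ℂ) n = (n.divisors.card : ℂ) := by
    rw [LSeries.convolution_def]
    beta_reduce
    rw [Nat.sum_divisorsAntidiagonal (f := fun x y => (1 : ℕ → ℂ) x * (1 : ℕ → ℂ) y)]
    simp
  rw [h3]
  refine (hf n).trans (le_of_eq ?_)
  rw [Complex.norm_natCast]

/-- the Dirichlet series of `bb h` -/
lemma hsF {h : GaussianInt →* ℂ} (hh : UH h) : ∀ s : ℂ, 1 < s.re →
    HasSum (fun n : ℕ => bb h n * (n : ℂ) ^ (-s)) (LSeries (bb h) s) := by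
  intro s hs
  have h1 := (summ_dv (lg_bb h hh).bd hs).LSeriesHasSum
  have h2 : LSeries.term (bb h) s = fun n : ℕ => bb h n * (n : ℂ) ^ (-s) :=
    funext fun n => LogDerH.term_b (bb h) (lg_bb h hh).b0 s n
  have h3 : HasSum (LSeries.term (bb h) s) (LSeries (bb h) s) := h1
  rwa [h2] at h3

/-- the trivial Euler product -/
noncomputable def b1 : ℕ → ℂ := fun n => if n = 0 then 0 else 1

lemma lg_one : Lg b1 (fun _ => 1) := by
  refine ⟨by simp [b1], by simp [b1], ?_, ?_, ?_⟩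
  · intro n
    rcases Nat.eq_zero_or_pos n with rfl | hn
    · simp [b1]
    · have h1 : 1 ≤ n.divisors.card := Finset.card_pos.2 ⟨1, Nat.one_mem_divisors.2 hn.ne'⟩
      have h2 : (1 : ℝ) ≤ (n.divisors.card : ℝ) := by exact_mod_cast h1
      simp only [b1, if_neg hn.ne', norm_one]
      exact h2
  · intro n
    rw [norm_one]
    norm_num
  · intro n hn
    have h1 := ArithmeticFunction.vonMangoldt_sum (n := n)
    have h2 : ∑ d ∈ n.divisors, (ArithmeticFunction.vonMangoldt d : ℂ) * 1 * b1 (n / d) =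
        ((∑ d ∈ n.divisors, ArithmeticFunction.vonMangoldt d : ℝ) : ℂ) := by
      push_cast
      refine Finset.sum_congr rfl fun d hd => ?_
      have hd1 : d ∣ n := Nat.dvd_of_mem_divisors hd
      have hd2 : n / d ≠ 0 := (Nat.div_pos (Nat.le_of_dvd (Nat.pos_of_ne_zero hn) hd1)
        (Nat.pos_of_dvd_of_pos hd1 (Nat.pos_of_ne_zero hn))).ne'
      simp only [b1, if_neg hd2, mul_one]
    rw [h2, h1]
    simp only [b1, if_neg hn, one_mul]

lemma hsO : ∀ s : ℂ, 1 < s.re →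
    HasSum (fun n : ℕ => b1 n * (n : ℂ) ^ (-s)) (LSeries b1 s) := by
  intro s hs
  have h1 := (summ_dv lg_one.bd hs).LSeriesHasSum
  have h2 : LSeries.term b1 s = fun n : ℕ => b1 n * (n : ℂ) ^ (-s) :=
    funext fun n => LogDerH.term_b b1 lg_one.b0 s n
  have h3 : HasSum (LSeries.term b1 s) (LSeries b1 s) := h1
  rwa [h2] at h3

/-- `ζ(s) ≤ 1 + 1 / (s - 1)` for real `s > 1` -/
lemma zeta_le {s : ℝ} (hs : 1 < s) : ∑' n : ℕ, (n : ℝ) ^ (-s) ≤ 1 + 1 / (s - 1) := by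
  have hsum : Summable (fun n : ℕ => (n : ℝ) ^ (-s)) :=
    Real.summable_nat_rpow.mpr (by linarith)
  rw [hsum.tsum_eq_zero_add]
  have h0 : ((0 : ℕ) : ℝ) ^ (-s) = 0 := by
    rw [Nat.cast_zero, Real.zero_rpow (by linarith)]
  rw [h0, zero_add]
  have h1 : ∀ n : ℕ, ((n + 1 : ℕ) : ℝ) ^ (-s) = 1 / ((n : ℝ) + 1) ^ s := by
    intro n
    rw [Real.rpow_neg (by positivity), one_div]
    push_cast
    rfl
  simp_rw [h1]
  have h2 := ZetaAsymptotics.zeta_limit_aux1 hs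
  have h3 : 0 ≤ ZetaAsymptotics.termTSum s :=
    tsum_nonneg fun n => ZetaAsymptotics.term_nonneg _ _
  have h4 : 0 ≤ s * ZetaAsymptotics.termTSum s := mul_nonneg (by linarith) h3
  linarith

/-- the terms of the logarithm -/
noncomputable def lt (σ : ℝ) (n : ℕ) : ℝ := vonMangoldt n / Real.log n * (n : ℝ) ^ (-σ)

lemma term_lco_one (σ : ℝ) (n : ℕ) :
    LSeries.term (LogDerH.lco (fun _ => 1)) (σ : ℂ) n = (lt σ n : ℂ) := by
  rw [LogDerH.term_b _ (by simp [LogDerH.lco, LogDerH.bco])]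
  unfold LogDerH.lco LogDerH.bco lt
  rw [mul_one]
  push_cast
  rw [Complex.ofReal_cpow (Nat.cast_nonneg n)]
  push_cast
  rfl

lemma lt_nonneg (σ : ℝ) (n : ℕ) : 0 ≤ lt σ n := by
  unfold lt
  refine mul_nonneg (div_nonneg ArithmeticFunction.vonMangoldt_nonneg (Real.log_natCast_nonneg n))
    (Real.rpow_nonneg (Nat.cast_nonneg n) _)

lemma lt_summable {σ : ℝ} (hσ : 1 < σ) : Summable (lt σ) := by
  have h1 := LogDerH.lco_summable b1 _ lg_one (σ : ℂ) (by simpa using hσ)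
  have h2 : Summable (LSeries.term (LogDerH.lco (fun _ => 1)) (σ : ℂ)) := h1
  have h3 : LSeries.term (LogDerH.lco (fun _ => 1)) (σ : ℂ) = fun n => (lt σ n : ℂ) :=
    funext fun n => term_lco_one σ n
  rw [h3] at h2
  exact_mod_cast h2

lemma exp_lt {σ : ℝ} (hσ : 1 < σ) : Real.exp (∑' n, lt σ n) ≤ 1 + 1 / (σ - 1) := by
  have h1 := LogDerH.F_exp b1 _ lg_one (LSeries b1) hsO (σ : ℂ) (by simpa using hσ)
  have h2 : LSeries (LogDerH.lco (fun _ => 1)) (σ : ℂ) = ((∑' n, lt σ n : ℝ) : ℂ) := by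
    unfold LSeries
    rw [Complex.ofReal_tsum]
    exact tsum_congr fun n => term_lco_one σ n
  have h3 : LSeries b1 (σ : ℂ) = ((∑' n : ℕ, (n : ℝ) ^ (-σ) : ℝ) : ℂ) := by
    unfold LSeries
    rw [Complex.ofReal_tsum]
    refine tsum_congr fun n => ?_
    rw [LogDerH.term_b _ lg_one.b0, Complex.ofReal_cpow (Nat.cast_nonneg n)]
    rcases Nat.eq_zero_or_pos n with rfl | hn
    · simp only [b1, if_true, zero_mul, Nat.cast_zero, Complex.ofReal_zero]
      rw [Complex.zero_cpow]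
      simp only [Complex.ofReal_neg, ne_eq, neg_eq_zero, Complex.ofReal_eq_zero]
      linarith
    · simp only [b1, if_neg hn.ne', one_mul]
      push_cast
      rfl
  rw [h2, h3, ← Complex.ofReal_exp] at h1
  have h4 : (∑' n : ℕ, (n : ℝ) ^ (-σ)) = Real.exp (∑' n, lt σ n) := by exact_mod_cast h1
  rw [← h4]
  exact zeta_le hσ

/-- the bound for the inverse to the right of the line -/
lemma inv_le {h : GaussianInt →* ℂ} (hh : UH h) {s : ℂ} (hs : 1 < s.re) :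
    LSeries (bb h) s ≠ 0 ∧ ‖(LSeries (bb h) s)⁻¹‖ ≤ (1 + 1 / (s.re - 1)) ^ 2 := by
  have hlg := lg_bb h hh
  refine ⟨F_ne_zero _ _ hlg _ (hsF hh) s hs, ?_⟩
  rw [LogDerH.F_exp _ _ hlg _ (hsF hh) s hs, ← Complex.exp_neg, Complex.norm_exp]
  have h1 : ‖LSeries (LogDerH.lco (ccf h)) s‖ ≤ 2 * ∑' n, lt s.re n := by
    refine tsum_of_norm_bounded ((lt_summable hs).hasSum.mul_left 2) ?_
    intro n
    rcases Nat.eq_zero_or_pos n with rfl | hn
    · rw [LSeries.term_zero, norm_zero]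
      exact mul_nonneg (by norm_num) (lt_nonneg _ _)
    · rw [LogDerH.term_b _ (by simp [LogDerH.lco, LogDerH.bco]), norm_mul,
        Complex.norm_natCast_cpow_of_pos hn, Complex.neg_re]
      unfold LogDerH.lco LogDerH.bco lt
      rw [norm_div, norm_mul, Complex.norm_real, Complex.norm_real,
        Real.norm_of_nonneg ArithmeticFunction.vonMangoldt_nonneg,
        Real.norm_of_nonneg (Real.log_natCast_nonneg n), ← mul_assoc]
      refine mul_le_mul_of_nonneg_right ?_ (Real.rpow_nonneg (Nat.cast_nonneg n) _)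
      rw [← mul_div_assoc]
      refine div_le_div_of_nonneg_right ?_ (Real.log_natCast_nonneg n)
      rw [mul_comm]
      exact mul_le_mul_of_nonneg_right (hlg.cd n) ArithmeticFunction.vonMangoldt_nonneg
  have h2 : (-LSeries (LogDerH.lco (ccf h)) s).re ≤ 2 * ∑' n, lt s.re n := by
    rw [Complex.neg_re]
    have h3 := Complex.abs_re_le_norm (LSeries (LogDerH.lco (ccf h)) s)
    have h4 := neg_abs_le (LSeries (LogDerH.lco (ccf h)) s).re
    linarith
  calc Real.exp ((-LSeries (LogDerH.lco (ccf h)) s).re) ≤ Real.exp (2 * ∑' n, lt s.re n) :=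
        Real.exp_le_exp.2 h2
    _ = (Real.exp (∑' n, lt s.re n)) ^ 2 := by
        rw [← Real.exp_nat_mul]
        norm_num
    _ ≤ (1 + 1 / (s.re - 1)) ^ 2 := pow_le_pow_left₀ (Real.exp_pos _).le (exp_lt hs) 2

/-- the main term of the logarithmic derivative -/
noncomputable def AA (σ : ℝ) : ℝ :=
  ∑' n : ℕ, vonMangoldt n * (1 + ((ZMod.χ₄ (n : ZMod 4) : ℤ) : ℝ)) * (n : ℝ) ^ (-σ)

lemma AA_le : ∃ K : ℝ, 0 < K ∧ ∀ σ : ℝ, 1 < σ → σ ≤ 2 → AA σ ≤ 1 / (σ - 1) + K := by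
  have hc := continuousOn_LFunctionResidueClassAux (1 : ZMod 4)
  have hc2 : ContinuousOn (fun σ : ℝ => ‖LFunctionResidueClassAux (1 : ZMod 4) (σ : ℂ)‖)
      (Set.Icc 1 2) := by
    refine ContinuousOn.norm (hc.comp Complex.continuous_ofReal.continuousOn ?_)
    intro σ hσ
    simpa using hσ.1
  obtain ⟨B, hB⟩ := isCompact_Icc.exists_bound_of_continuousOn hc2
  set C : ℝ := ∑' n : ℕ, nzr_e n * (n : ℝ)⁻¹ with hC
  have hC0 : 0 ≤ C := tsum_nonneg fun n => mul_nonneg (nzr_e_nonneg n) (by positivity)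
  have hB0 : 0 ≤ B := le_trans (norm_nonneg _) (hB 1 ⟨le_rfl, by norm_num⟩)
  refine ⟨2 * B + C + 1, by linarith, ?_⟩
  intro σ hσ1 hσ2
  have hs1 : (1 : ℝ) < (σ : ℂ).re := by simpa using hσ1
  have sum1 : Summable (fun n : ℕ => (residueClass (1 : ZMod 4) n : ℂ) * (n : ℂ) ^ (-(σ : ℂ))) := by
    refine summable_term _ 1 ?_ _ hs1
    intro n
    rw [Complex.norm_real, Real.norm_of_nonneg (residueClass_nonneg _ n), one_mul]
    exact residueClass_le _ n
  have e1 : ∀ n : ℕ, (residueClass (1 : ZMod 4) n : ℂ) * (n : ℂ) ^ (-(σ : ℂ)) =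
      ((residueClass (1 : ZMod 4) n * (n : ℝ) ^ (-σ) : ℝ) : ℂ) := by
    intro n
    rw [Complex.ofReal_mul, Complex.ofReal_cpow (Nat.cast_nonneg n)]
    push_cast
    rfl
  simp_rw [e1] at sum1
  have sum1' : Summable (fun n : ℕ => residueClass (1 : ZMod 4) n * (n : ℝ) ^ (-σ)) := by
    exact_mod_cast sum1
  have sum2 : Summable (fun n : ℕ => nzr_e n * (n : ℝ) ^ (-σ)) := by
    refine Summable.of_nonneg_of_le (fun n => mul_nonneg (nzr_e_nonneg n)
      (Real.rpow_nonneg (Nat.cast_nonneg n) _)) (fun n => ?_) nzr_e_summable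
    refine mul_le_mul_of_nonneg_left ?_ (nzr_e_nonneg n)
    rcases Nat.eq_zero_or_pos n with rfl | hn
    · rw [Nat.cast_zero, Real.zero_rpow (by linarith), inv_zero]
    · rw [← Real.rpow_neg_one]
      exact Real.rpow_le_rpow_of_exponent_le (by exact_mod_cast hn) (by linarith)
  have hA : AA σ = 2 * ∑' n : ℕ, residueClass (1 : ZMod 4) n * (n : ℝ) ^ (-σ) +
      ∑' n : ℕ, nzr_e n * (n : ℝ) ^ (-σ) := by
    unfold AA
    rw [← tsum_mul_left, ← Summable.tsum_add (sum1'.mul_left 2) sum2]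
    refine tsum_congr fun n => ?_
    rw [nzr_coef]
    ring
  have hE : ∑' n : ℕ, nzr_e n * (n : ℝ) ^ (-σ) ≤ C := by
    refine Summable.tsum_le_tsum (fun n => ?_) sum2 nzr_e_summable
    refine mul_le_mul_of_nonneg_left ?_ (nzr_e_nonneg n)
    rcases Nat.eq_zero_or_pos n with rfl | hn
    · rw [Nat.cast_zero, Real.zero_rpow (by linarith), inv_zero]
    · rw [← Real.rpow_neg_one]
      exact Real.rpow_le_rpow_of_exponent_le (by exact_mod_cast hn) (by linarith)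
  have hR := eqOn_LFunctionResidueClassAux (a := (1 : ZMod 4)) isUnit_one
    (show (σ : ℂ) ∈ {s : ℂ | 1 < s.re} from hs1)
  have hB2 := hB σ ⟨hσ1.le, hσ2⟩
  rw [norm_norm, hR] at hB2
  have hL : LSeries (fun n => (residueClass (1 : ZMod 4) n : ℂ)) (σ : ℂ) =
      ((∑' n : ℕ, residueClass (1 : ZMod 4) n * (n : ℝ) ^ (-σ) : ℝ) : ℂ) := by
    rw [LSeries_eq_tsum _ (by simp), Complex.ofReal_tsum]
    exact tsum_congr e1
  have htot : ((4 : ℕ).totient : ℂ)⁻¹ = 1 / 2 := by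
    have : Nat.totient 4 = 2 := by decide
    rw [this]
    norm_num
  have hre := (le_abs_self _).trans ((Complex.abs_re_le_norm _).trans hB2)
  rw [Complex.sub_re] at hre
  have hL2 : (LSeries (fun n => (residueClass (1 : ZMod 4) n : ℂ)) (σ : ℂ)).re =
      ∑' n : ℕ, residueClass (1 : ZMod 4) n * (n : ℝ) ^ (-σ) := by
    rw [hL, Complex.ofReal_re]
  have hq : ((((4 : ℕ).totient : ℂ)⁻¹) / ((σ : ℂ) - 1)).re = 1 / 2 / (σ - 1) := by
    rw [htot]
    have : (1 / 2 : ℂ) / ((σ : ℂ) - 1) = ((1 / 2 / (σ - 1) : ℝ) : ℂ) := by push_cast; rfl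
    rw [this, Complex.ofReal_re]
  have hre2 : (LSeries (fun n => (residueClass (1 : ZMod 4) n : ℂ)) (σ : ℂ)).re -
    ((((4 : ℕ).totient : ℂ)⁻¹) / ((σ : ℂ) - 1)).re ≤ B := hre
  rw [hL2, hq] at hre2
  have h2 : 1 / (σ - 1) = 2 * (1 / 2 / (σ - 1)) := by ring
  rw [hA, h2]
  linarith

/-- the logarithmic derivative to the right of the line -/
lemma ld_eq {h : GaussianInt →* ℂ} (hh : UH h) {s : ℂ} (hs : 1 < s.re) :
    deriv (LSeries (bb h)) s / LSeries (bb h) s = -∑' n : ℕ, ((vonMangoldt n : ℂ) * ccf h n) *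
      (n : ℂ) ^ (-s) :=
  F_ld _ _ (lg_bb h hh) _ (hsF hh) s hs

lemma uh_sq {h : GaussianInt →* ℂ} (hh : UH h) : UH (h * h) := by
  refine ⟨?_, ?_, ?_⟩
  · rw [MonoidHom.mul_apply, hh.h0, zero_mul]
  · intro a
    rw [MonoidHom.mul_apply, norm_mul]
    exact mul_le_one₀ (hh.hb a) (norm_nonneg _) (hh.hb a)
  · rw [MonoidHom.mul_apply, hh.hi, one_mul]

/-- the 3-4-1 inequality -/
lemma tfo {h : GaussianInt →* ℂ} (hh : UH h) {σ : ℝ} (hσ : 1 < σ) (t : ℝ) :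
    4 * (deriv (LSeries (bb h)) (⟨σ, t⟩ : ℂ) / LSeries (bb h) (⟨σ, t⟩ : ℂ)).re +
      (deriv (LSeries (bb (h * h))) (⟨σ, 2 * t⟩ : ℂ) / LSeries (bb (h * h)) (⟨σ, 2 * t⟩ : ℂ)).re ≤
      3 * AA σ := by
  obtain ⟨g, hg⟩ : ∃ g : GaussianInt →* ℂ, g = h * h := ⟨_, rfl⟩
  have hh2 : UH g := hg ▸ uh_sq hh
  have hcm : (⇑h * ⇑h : GaussianInt → ℂ) = ⇑g := by rw [hg]; rfl
  rw [hcm]
  have hlg := lg_bb h hh
  have hlg2 := lg_bb g hh2
  have hs0 : (1 : ℝ) < (⟨σ, t⟩ : ℂ).re := hσ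
  have hs1 : (1 : ℝ) < (⟨σ, 2 * t⟩ : ℂ).re := hσ
  have hs2 : (1 : ℝ) < (σ : ℂ).re := by simpa using hσ
  rw [ld_eq hh hs0, ld_eq hh2 hs1]
  have sum1 : Summable (fun n : ℕ =>
      ((vonMangoldt n * (1 + ((ZMod.χ₄ (n : ZMod 4) : ℤ) : ℝ)) : ℝ) : ℂ) *
      (n : ℂ) ^ (-(σ : ℂ))) := by
    refine summable_term _ 2 ?_ _ hs2
    intro n
    rw [Complex.norm_real, Real.norm_eq_abs, abs_mul,
      abs_of_nonneg ArithmeticFunction.vonMangoldt_nonneg, mul_comm]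
    exact mul_le_mul_of_nonneg_right (nzr_chi_bound n) ArithmeticFunction.vonMangoldt_nonneg
  have sumc : ∀ (c : ℕ → ℂ), (∀ n, ‖c n‖ ≤ 2) → ∀ s : ℂ, 1 < s.re →
      Summable (fun n : ℕ => ((vonMangoldt n : ℂ) * c n) * (n : ℂ) ^ (-s)) := by
    intro c hc s hs
    refine summable_term _ 2 ?_ _ hs
    intro n
    rw [norm_mul, Complex.norm_real, Real.norm_of_nonneg ArithmeticFunction.vonMangoldt_nonneg,
      mul_comm]
    exact mul_le_mul_of_nonneg_right (hc n) ArithmeticFunction.vonMangoldt_nonneg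
  have sum2 := sumc _ hlg.cd _ hs0
  have sum3 := sumc _ hlg2.cd _ hs1
  have hAA : (AA σ : ℂ) = ∑' n : ℕ,
      ((vonMangoldt n * (1 + ((ZMod.χ₄ (n : ZMod 4) : ℤ) : ℝ)) : ℝ) : ℂ) *
      (n : ℂ) ^ (-(σ : ℂ)) := by
    unfold AA
    rw [Complex.ofReal_tsum]
    refine tsum_congr fun n => ?_
    rw [Complex.ofReal_mul, Complex.ofReal_cpow (Nat.cast_nonneg n)]
    push_cast
    rfl
  have htot : 0 ≤ (3 * (AA σ : ℂ) +
      4 * ∑' n : ℕ, ((vonMangoldt n : ℂ) * ccf h n) * (n : ℂ) ^ (-(⟨σ, t⟩ : ℂ)) +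
      ∑' n : ℕ, ((vonMangoldt n : ℂ) * ccf g n) * (n : ℂ) ^ (-(⟨σ, 2 * t⟩ : ℂ))).re := by
    rw [hAA, ← tsum_mul_left, ← tsum_mul_left, ← Summable.tsum_add (sum1.mul_left 3) (sum2.mul_left 4),
      ← Summable.tsum_add ((sum1.mul_left 3).add (sum2.mul_left 4)) sum3,
      Complex.re_tsum (((sum1.mul_left 3).add (sum2.mul_left 4)).add sum3)]
    refine tsum_nonneg fun n => ?_
    rcases Nat.eq_zero_or_pos n with rfl | hn
    · simp
    have hn0 : (n : ℂ) ≠ 0 := by exact_mod_cast hn.ne'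
    set y : ℂ := (n : ℂ) ^ (-(t * I)) with hy
    have hy1 : ‖y‖ ≤ 1 := by
      rw [hy, Complex.norm_natCast_cpow_of_pos hn]
      simp
    have e0 : (n : ℂ) ^ (-(σ : ℂ)) = (((n : ℝ) ^ (-σ) : ℝ) : ℂ) := by
      rw [Complex.ofReal_cpow (by positivity)]; push_cast; rfl
    have e2 : (n : ℂ) ^ (-(⟨σ, t⟩ : ℂ)) = (((n : ℝ) ^ (-σ) : ℝ) : ℂ) * y := by
      rw [← e0, hy, ← Complex.cpow_add _ _ hn0]
      congr 1
      apply Complex.ext <;> simp
    have e3 : (n : ℂ) ^ (-(⟨σ, 2 * t⟩ : ℂ)) = (((n : ℝ) ^ (-σ) : ℝ) : ℂ) * y ^ 2 := by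
      rw [← e0, hy, pow_two, ← Complex.cpow_add _ _ hn0, ← Complex.cpow_add _ _ hn0]
      congr 1
      apply Complex.ext
      · simp
      · simp; ring
    have e4 : 3 * (((vonMangoldt n * (1 + ((ZMod.χ₄ (n : ZMod 4) : ℤ) : ℝ)) : ℝ) : ℂ) *
        (n : ℂ) ^ (-(σ : ℂ))) +
        4 * (((vonMangoldt n : ℂ) * ccf h n) * (n : ℂ) ^ (-(⟨σ, t⟩ : ℂ))) +
        ((vonMangoldt n : ℂ) * ccf g n) * (n : ℂ) ^ (-(⟨σ, 2 * t⟩ : ℂ)) =
        (((n : ℝ) ^ (-σ) : ℝ) : ℂ) * ∑ p ∈ CS n, (((1 / 4) * LamK ⟨p.1, p.2⟩ : ℝ) : ℂ) *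
          (3 + 4 * (h ⟨p.1, p.2⟩ * y) + (h ⟨p.1, p.2⟩ * y) ^ 2) := by
      rw [← lam_one n, ← lam_eq h hh n, ← lam_eq g hh2 n, e0, e2, e3]
      unfold bb
      have expand : ∀ (A B C D E : ℂ), 3 * (A * D) + 4 * (B * (D * E)) + C * (D * E ^ 2) =
          D * (A * 3 + B * (4 * E) + C * E ^ 2) := by
        intro A B C D E; ring
      rw [expand, Finset.mul_sum, Finset.mul_sum, Finset.mul_sum, Finset.sum_mul, Finset.sum_mul,
        Finset.sum_mul, ← Finset.sum_add_distrib, ← Finset.sum_add_distrib]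
      congr 1
      apply Finset.sum_congr rfl
      intro p _
      rw [hg]
      simp only [MonoidHom.mul_apply]
      push_cast
      ring
    rw [e4, Complex.re_ofReal_mul]
    refine mul_nonneg (by positivity) ?_
    rw [Complex.re_sum]
    apply Finset.sum_nonneg
    intro p _
    rw [Complex.re_ofReal_mul]
    refine mul_nonneg (mul_nonneg (by norm_num) (nzr_LamK_nonneg _)) (nzr_ineq _ ?_)
    rw [norm_mul]
    calc ‖h ⟨p.1, p.2⟩‖ * ‖y‖ ≤ 1 * 1 := mul_le_mul (hh.hb _) hy1 (norm_nonneg _) zero_le_one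
      _ = 1 := one_mul 1
  have e5 : (3 * (AA σ : ℂ)).re = 3 * AA σ := by
    simp
  have e6 : ∀ z : ℂ, (4 * z).re = 4 * z.re := fun z => by simp
  rw [Complex.add_re, Complex.add_re, e5, e6] at htot
  rw [Complex.neg_re, Complex.neg_re]
  linarith

end Pool.Agent.N864.GN
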