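import Pool.Agent.N546.GN.FT
import Pool.Agent.N782.GN.StmT

/-!
# Project GN, subtask MB (helper864): sums over sectors, rotation, classes
-/

set_option autoImplicit false

namespace Pool.Agent.N864.GN.MB

open Finset MeasureTheory
open Pool.Agent.N782.GN
open Pool.Agent.N546.GN.FTaux (gI gI_meas gI_per gI_abs sc_eq)

/-- the sum over the sector -/
noncomputable def fS (δ : ℝ) (S : Finset ZI) (c : ZI → ℝ) (x : ℝ) : ℝ := ∑ t ∈ S, c t * sc δ x t

theorem fS_meas (δ : ℝ) (S : Finset ZI) (c : ZI → ℝ) : Measurable (fS δ S c) := by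
  unfold fS
  refine Finset.measurable_sum _ fun t _ => ?_
  exact (gI_meas δ _).const_mul _

theorem sc_abs (δ x : ℝ) (t : ZI) : |sc δ x t| ≤ 1 := gI_abs _ _ _

theorem fS_bd (δ : ℝ) (S : Finset ZI) (c : ZI → ℝ) (x : ℝ) : |fS δ S c x| ≤ ∑ t ∈ S, |c t| := by
  unfold fS
  refine (Finset.abs_sum_le_sum_abs _ _).trans (Finset.sum_le_sum fun t _ => ?_)
  rw [abs_mul]
  exact mul_le_of_le_one_right (abs_nonneg _) (sc_abs _ _ _)

theorem fS_per (δ : ℝ) (S : Finset ZI) (c : ZI → ℝ) :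
    Function.Periodic (fS δ S c) (2 * Real.pi) := by
  intro x
  unfold fS
  refine Finset.sum_congr rfl fun t _ => ?_
  rw [sc_eq, sc_eq, gI_per]

/-- integrability -/
theorem ii_of {f : ℝ → ℝ} (hm : Measurable f) {M : ℝ} (hb : ∀ x, |f x| ≤ M) (a b : ℝ) :
    IntervalIntegrable f volume a b := by
  rw [intervalIntegrable_iff]
  refine Measure.integrableOn_of_bounded (M := M) ?_ hm.aestronglyMeasurable ?_
  · simp
  · exact Filter.Eventually.of_forall fun x => by rw [Real.norm_eq_abs]; exact hb x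

theorem ii_sq {f : ℝ → ℝ} (hm : Measurable f) {M : ℝ} (hb : ∀ x, |f x| ≤ M) (a b : ℝ) :
    IntervalIntegrable (fun x => (f x) ^ 2) volume a b := by
  refine ii_of (hm.pow_const 2) (M := M ^ 2) (fun x => ?_) a b
  rw [abs_pow]
  exact pow_le_pow_left₀ (abs_nonneg _) (hb x) 2

/-- the square of a sum -/
theorem int_sum_sq {ι : Type*} (s : Finset ι) (f : ι → ℝ → ℝ) (hm : ∀ i ∈ s, Measurable (f i))
    {M : ι → ℝ} (hb : ∀ i ∈ s, ∀ x, |f i x| ≤ M i) {E : ℝ}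
    (h : ∀ i ∈ s, ∫ x in (0 : ℝ)..(2 * Real.pi), (f i x) ^ 2 ≤ E) :
    ∫ x in (0 : ℝ)..(2 * Real.pi), (∑ i ∈ s, f i x) ^ 2 ≤ (s.card : ℝ) ^ 2 * E := by
  have hpi : (0 : ℝ) ≤ 2 * Real.pi := by positivity
  have h1 : ∫ x in (0 : ℝ)..(2 * Real.pi), (∑ i ∈ s, f i x) ^ 2 ≤
      ∫ x in (0 : ℝ)..(2 * Real.pi), (s.card : ℝ) * ∑ i ∈ s, (f i x) ^ 2 := by
    apply intervalIntegral.integral_mono_on hpi
    · refine ii_sq (Finset.measurable_sum s hm) (M := ∑ i ∈ s, M i) (fun x => ?_) _ _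
      exact (Finset.abs_sum_le_sum_abs _ _).trans (Finset.sum_le_sum fun i hi => hb i hi x)
    · refine IntervalIntegrable.const_mul ?_ _
      have h2 := IntervalIntegrable.sum s (f := fun i x => (f i x) ^ 2) (a := 0) (b := 2 * Real.pi)
        (μ := volume) (fun i hi => ii_sq (hm i hi) (hb i hi) _ _)
      have e : (fun x => ∑ i ∈ s, (f i x) ^ 2) = ∑ i ∈ s, (fun x => (f i x) ^ 2) := by
        funext x
        rw [Finset.sum_apply]
      rw [e]
      exact h2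
    · intro x _
      exact sq_sum_le_card_mul_sum_sq
  refine h1.trans ?_
  rw [intervalIntegral.integral_const_mul, intervalIntegral.integral_finsetSum
    (fun i hi => ii_sq (hm i hi) (hb i hi) _ _), pow_two, mul_assoc]
  refine mul_le_mul_of_nonneg_left ?_ (Nat.cast_nonneg _)
  refine (Finset.sum_le_sum h).trans ?_
  rw [Finset.sum_const, nsmul_eq_mul]

theorem nz_mul (a b : ZI) : nz (a * b) = nz a * nz b := by
  unfold nz
  rw [Zsqrtd.norm_mul]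
  push_cast
  rfl

theorem one_le_nz {a : ZI} (ha : a ≠ 0) : 1 ≤ nz a := by
  have h1 : 0 < Zsqrtd.norm a := by
    have h2 := GaussianInt.norm_nonneg a
    have h3 : Zsqrtd.norm a ≠ 0 := fun h => ha ((GaussianInt.norm_eq_zero).1 h)
    omega
  unfold nz
  exact_mod_cast h1

theorem gI_shift (δ θ α x : ℝ) : gI δ (θ + α) x = gI δ θ (x - α) := by
  classical
  unfold gI
  refine if_congr ?_ rfl rfl
  constructor
  · rintro ⟨j, h1, h2⟩
    exact ⟨j, by linarith, by linarith⟩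
  · rintro ⟨j, h1, h2⟩
    exact ⟨j, by linarith, by linarith⟩

theorem gI_int (δ θ x : ℝ) (k : ℤ) : gI δ (θ + 2 * Real.pi * k) x = gI δ θ x := by
  classical
  unfold gI
  refine if_congr ?_ rfl rfl
  constructor
  · rintro ⟨j, h1, h2⟩
    refine ⟨j + k, ?_, ?_⟩ <;> push_cast <;> linarith
  · rintro ⟨j, h1, h2⟩
    refine ⟨j - k, ?_, ?_⟩ <;> push_cast <;> linarith

/-- rotation of sectors -/
theorem sc_mul (δ x : ℝ) {d s : ZI} (hd : d ≠ 0) (hs : s ≠ 0) :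
    sc δ x (d * s) = sc δ (x - Complex.arg (d : ℂ)) s := by
  have hd' : (d : ℂ) ≠ 0 := by
    rw [Ne, GaussianInt.toComplex_eq_zero]
    exact hd
  have hs' : (s : ℂ) ≠ 0 := by
    rw [Ne, GaussianInt.toComplex_eq_zero]
    exact hs
  have h1 := Complex.arg_mul_coe_angle hd' hs'
  rw [← Real.Angle.coe_add, Real.Angle.angle_eq_iff_two_pi_dvd_sub] at h1
  obtain ⟨k, hk⟩ := h1
  rw [sc_eq, sc_eq, ← gI_shift]
  have h2 : Complex.arg ((d * s : ZI) : ℂ) =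
      (Complex.arg (s : ℂ) + Complex.arg (d : ℂ)) + 2 * Real.pi * k := by
    rw [GaussianInt.toComplex_mul]
    linarith
  rw [h2, gI_int]

/-- rotation invariance of the integral -/
theorem int_rot (f : ℝ → ℝ) (hf : Function.Periodic f (2 * Real.pi)) (α : ℝ) :
    ∫ x in (0 : ℝ)..(2 * Real.pi), f (x - α) = ∫ x in (0 : ℝ)..(2 * Real.pi), f x := by
  rw [intervalIntegral.integral_comp_sub_right]
  have h := hf.intervalIntegral_add_eq (0 - α) 0
  rw [zero_add] at h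
  rw [← h]
  congr 1
  ring

/-- representatives of the classes -/
noncomputable def Rp (Q : ℕ) : Finset ZI :=
  ((range Q) ×ˢ (range Q)).image (fun p : ℕ × ℕ => (⟨(p.1 : ℤ), (p.2 : ℤ)⟩ : ZI))

theorem card_Rp (Q : ℕ) : (Rp Q).card ≤ Q ^ 2 := by
  unfold Rp
  refine Finset.card_image_le.trans ?_
  rw [Finset.card_product, card_range, pow_two]

/-- the representative -/
noncomputable def rd (Q : ℕ) (t : ZI) : ZI := ⟨t.re % Q, t.im % Q⟩

theorem rd_mem {Q : ℕ} (hQ : 1 ≤ Q) (t : ZI) : rd Q t ∈ Rp Q := by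
  unfold Rp rd
  rw [mem_image]
  have h1 := Int.emod_nonneg t.re (by omega : (Q : ℤ) ≠ 0)
  have h2 := Int.emod_nonneg t.im (by omega : (Q : ℤ) ≠ 0)
  have h3 := Int.emod_lt_of_pos t.re (by omega : (0 : ℤ) < Q)
  have h4 := Int.emod_lt_of_pos t.im (by omega : (0 : ℤ) < Q)
  refine ⟨((t.re % Q).toNat, (t.im % Q).toNat), ?_, ?_⟩
  · rw [mem_product, mem_range, mem_range]
    constructor
    · show (t.re % Q).toNat < Q
      omega
    · show (t.im % Q).toNat < Q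
      omega
  · simp only
    rw [Int.toNat_of_nonneg h1, Int.toNat_of_nonneg h2]

theorem nat_dvd_iff (Q : ℕ) (t : ZI) : ((Q : ℕ) : ZI) ∣ t ↔ (Q : ℤ) ∣ t.re ∧ (Q : ℤ) ∣ t.im := by
  have h : ((Q : ℕ) : ZI) = (((Q : ℤ) : ZI)) := by simp
  rw [h]
  exact Zsqrtd.intCast_dvd _ _

theorem rd_dvd (Q : ℕ) (t : ZI) : ((Q : ℕ) : ZI) ∣ t - rd Q t := by
  rw [nat_dvd_iff]
  unfold rd
  constructor
  · show (Q : ℤ) ∣ t.re - t.re % Q
    exact Int.dvd_self_sub_emod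
  · show (Q : ℤ) ∣ t.im - t.im % Q
    exact Int.dvd_self_sub_emod

theorem rd_eq {Q : ℕ} {t r : ZI} (hr : r ∈ Rp Q) (h : ((Q : ℕ) : ZI) ∣ t - r) : rd Q t = r := by
  unfold Rp at hr
  rw [mem_image] at hr
  obtain ⟨p, hp, rfl⟩ := hr
  rw [mem_product, mem_range, mem_range] at hp
  rw [nat_dvd_iff] at h
  obtain ⟨h1, h2⟩ := h
  have h1' : (Q : ℤ) ∣ t.re - (p.1 : ℤ) := h1
  have h2' : (Q : ℤ) ∣ t.im - (p.2 : ℤ) := h2
  unfold rd
  have e1 : t.re % Q = p.1 := by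
    have h3 : t.re % Q = (p.1 : ℤ) % Q :=
      (Int.emod_eq_emod_iff_emod_sub_eq_zero.2 (Int.emod_eq_zero_of_dvd h1'))
    rw [h3]
    exact Int.emod_eq_of_lt (by omega) (by exact_mod_cast hp.1)
  have e2 : t.im % Q = p.2 := by
    have h3 : t.im % Q = (p.2 : ℤ) % Q :=
      (Int.emod_eq_emod_iff_emod_sub_eq_zero.2 (Int.emod_eq_zero_of_dvd h2'))
    rw [h3]
    exact Int.emod_eq_of_lt (by omega) (by exact_mod_cast hp.2)
  rw [e1, e2]

open Classical in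
/-- splitting into classes -/
theorem split {Q : ℕ} (hQ : 1 ≤ Q) (P : ZI → Prop) (hP : ∀ s t : ZI, ((Q : ℕ) : ZI) ∣ s - t → (P s ↔ P t))
    (Y1 Y2 : ℝ) (F : ZI → ℝ) :
    ∑ t ∈ (bl Y2).filter (fun t => Y1 < nz t ∧ P t), F t =
      ∑ r ∈ (Rp Q).filter P, ∑ t ∈ (cls Q r Y2).filter (fun t => Y1 < nz t), F t := by
  rw [← Finset.sum_fiberwise_of_maps_to (s := (bl Y2).filter (fun t => Y1 < nz t ∧ P t))
    (t := (Rp Q).filter P) (g := rd Q)]
  · refine Finset.sum_congr rfl fun r hr => ?_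
    rw [mem_filter] at hr
    refine Finset.sum_congr ?_ fun _ _ => rfl
    ext t
    unfold cls
    simp only [mem_filter]
    constructor
    · rintro ⟨⟨h1, h2, h3⟩, h4⟩
      refine ⟨⟨h1, ?_⟩, h2⟩
      rw [← h4]
      exact rd_dvd Q t
    · rintro ⟨⟨h1, h2⟩, h3⟩
      refine ⟨⟨h1, h3, ?_⟩, rd_eq hr.1 h2⟩
      exact (hP t r h2).2 hr.2
  · intro t ht
    rw [mem_filter] at ht ⊢
    refine ⟨rd_mem hQ t, ?_⟩
    exact (hP t _ (rd_dvd Q t)).1 ht.2.2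

open Classical in
/-- the integral over a union of classes -/
theorem int_split {Q : ℕ} (hQ : 1 ≤ Q) (P : ZI → Prop)
    (hP : ∀ s t : ZI, ((Q : ℕ) : ZI) ∣ s - t → (P s ↔ P t)) (δ Y1 Y2 : ℝ) (c : ZI → ℝ) {E : ℝ} (hE : 0 ≤ E)
    (h : ∀ r : ZI, P r → ∫ x in (0 : ℝ)..(2 * Real.pi),
      (fS δ ((cls Q r Y2).filter (fun t => Y1 < nz t)) c x) ^ 2 ≤ E) :
    ∫ x in (0 : ℝ)..(2 * Real.pi), (fS δ ((bl Y2).filter (fun t => Y1 < nz t ∧ P t)) c x) ^ 2 ≤
      (Q : ℝ) ^ 4 * E := by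
  have h1 : ∀ x, fS δ ((bl Y2).filter (fun t => Y1 < nz t ∧ P t)) c x =
      ∑ r ∈ (Rp Q).filter P, fS δ ((cls Q r Y2).filter (fun t => Y1 < nz t)) c x := by
    intro x
    unfold fS
    exact split hQ P hP Y1 Y2 _
  simp_rw [h1]
  refine (int_sum_sq ((Rp Q).filter P) (fun r => fS δ ((cls Q r Y2).filter (fun t => Y1 < nz t)) c)
    (fun r _ => fS_meas _ _ _) (fun r _ x => fS_bd _ _ _ x) (E := E) ?_).trans ?_
  · intro r hr
    rw [mem_filter] at hr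
    exact h r hr.2
  · have h2 : (((Rp Q).filter P).card : ℝ) ≤ (Q : ℝ) ^ 2 := by
      have := (Finset.card_filter_le (Rp Q) P).trans (card_Rp Q)
      exact_mod_cast this
    have h3 : (((Rp Q).filter P).card : ℝ) ^ 2 ≤ ((Q : ℝ) ^ 2) ^ 2 :=
      pow_le_pow_left₀ (Nat.cast_nonneg _) h2 2
    calc (((Rp Q).filter P).card : ℝ) ^ 2 * E ≤ ((Q : ℝ) ^ 2) ^ 2 * E :=
          mul_le_mul_of_nonneg_right h3 hE
      _ = (Q : ℝ) ^ 4 * E := by ring

end Pool.Agent.N864.GN.MB
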