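import Pool.Agent.N864.GN.MbA

/-!
# Project GN, subtask MB (helper864): all classes, counting in sectors
-/

set_option autoImplicit false

namespace Pool.Agent.N864.GN.MB

open Finset MeasureTheory
open Pool.Agent.N782.GN
open Pool.Agent.N546.GN.FTaux (gI gI_meas gI_per gI_abs sc_eq)

open Classical in
/-- scaling a class by a divisor -/
theorem scale {Q : ℕ} {r d r1 q1 : ZI} (hd : d ≠ 0) (hr : r = d * r1) (hq : ((Q : ℕ) : ZI) = d * q1)
    (Y1 Y2 : ℝ) : (cls Q r Y2).filter (fun t => Y1 < nz t) =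
      ((bl (Y2 / nz d)).filter (fun s => Y1 / nz d < nz s ∧ q1 ∣ s - r1)).image (fun s => d * s) := by
  have hnd : 0 < nz d := lt_of_lt_of_le one_pos (one_le_nz hd)
  ext t
  unfold cls
  simp only [mem_filter, mem_image, mem_bl]
  constructor
  · rintro ⟨⟨⟨h1, h2⟩, h3⟩, h4⟩
    have h5 : d ∣ t := by
      have h6 : d ∣ t - r := (Dvd.intro _ hq.symm).trans h3
      have h7 : d ∣ r := Dvd.intro _ hr.symm
      have := dvd_add h6 h7
      rwa [sub_add_cancel] at this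
    obtain ⟨s, rfl⟩ := h5
    rw [nz_mul] at h2 h4
    refine ⟨s, ⟨⟨?_, ?_⟩, ?_, ?_⟩, rfl⟩
    · rintro rfl
      exact h1 (mul_zero d)
    · rw [le_div_iff₀ hnd]
      linarith
    · rw [div_lt_iff₀ hnd]
      linarith
    · rw [hq, hr, ← mul_sub] at h3
      exact (mul_dvd_mul_iff_left hd).1 h3
  · rintro ⟨s, ⟨⟨h1, h2⟩, h3, h4⟩, rfl⟩
    rw [le_div_iff₀ hnd] at h2
    rw [div_lt_iff₀ hnd] at h3
    rw [nz_mul]
    refine ⟨⟨⟨mul_ne_zero hd h1, by linarith⟩, ?_⟩, by linarith⟩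
    rw [hq, hr, ← mul_sub]
    exact mul_dvd_mul_left d h4

/-- the bound for all classes -/
theorem mb1g (hm : S_MUB) (h : S_MB1) (ε : ℝ) (A B : ℕ) (hε : 0 < ε) : ∃ C : ℝ, 0 < C ∧
    ∀ (V δ Y1 Y2 : ℝ) (Q : ℕ) (r : ZI), 2 ≤ V → V ^ (-(1 / 2) + ε : ℝ) ≤ δ → δ ≤ 1 → 0 ≤ Y1 → Y1 ≤ Y2 →
      Y2 ≤ V → 1 ≤ Q → (Q : ℝ) ≤ (Real.log V) ^ B →
      ∫ x in (0 : ℝ)..(2 * Real.pi), (fS δ ((cls Q r Y2).filter (fun t => Y1 < nz t)) mu x) ^ 2 ≤
        C * δ ^ 2 * V ^ 2 / (Real.log V) ^ A := by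
  classical
  obtain ⟨C, hC, h⟩ := h ε (A + 4 * B) B hε
  refine ⟨C, hC, ?_⟩
  intro V δ Y1 Y2 Q r hV hδ1 hδ2 hY1 hY2 hY3 hQ1 hQ2
  obtain ⟨hm1, hm2, -⟩ := hm
  have hlog : 0 < Real.log V := Real.log_pos (by linarith)
  have hQ0 : ((Q : ℕ) : ZI) ≠ 0 := by
    have : (Q : ZI) ≠ 0 := Nat.cast_ne_zero.2 (by omega)
    exact this
  obtain ⟨d, hdd⟩ : ∃ d, d = EuclideanDomain.gcd r ((Q : ℕ) : ZI) := ⟨_, rfl⟩
  have hdr : d ∣ r := hdd ▸ EuclideanDomain.gcd_dvd_left _ _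
  have hdq : d ∣ ((Q : ℕ) : ZI) := hdd ▸ EuclideanDomain.gcd_dvd_right _ _
  obtain ⟨r1, hr1⟩ := hdr
  obtain ⟨q1, hq1⟩ := hdq
  have hd0 : d ≠ 0 := by
    rintro rfl
    rw [zero_mul] at hq1
    exact hQ0 hq1
  have hcop : IsCoprime r1 q1 := by
    have h1 := EuclideanDomain.gcd_eq_gcd_ab r ((Q : ℕ) : ZI)
    rw [← hdd] at h1
    refine ⟨EuclideanDomain.gcdA r ((Q : ℕ) : ZI), EuclideanDomain.gcdB r ((Q : ℕ) : ZI), ?_⟩
    apply mul_left_cancel₀ hd0
    rw [mul_one]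
    generalize EuclideanDomain.gcdA r ((Q : ℕ) : ZI) = x at *
    generalize EuclideanDomain.gcdB r ((Q : ℕ) : ZI) = y at *
    rw [hr1, hq1] at h1
    linear_combination -h1
  have hnd : 1 ≤ nz d := one_le_nz hd0
  obtain ⟨P, hP⟩ : ∃ P : ZI → Prop, ∀ s, P s ↔ (q1 ∣ s - r1 ∧ IsCoprime s ((Q : ℕ) : ZI)) :=
    ⟨_, fun s => Iff.rfl⟩
  have hPper : ∀ s t : ZI, ((Q : ℕ) : ZI) ∣ s - t → (P s ↔ P t) := by
    have key : ∀ s t : ZI, ((Q : ℕ) : ZI) ∣ s - t → P s → P t := by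
      intro s t hst hs
      rw [hP] at hs ⊢
      obtain ⟨h1, h2⟩ := hs
      refine ⟨?_, ?_⟩
      · have h3 : q1 ∣ s - t := (Dvd.intro_left _ hq1.symm).trans hst
        have h4 := dvd_sub h1 h3
        have h5 : s - r1 - (s - t) = t - r1 := by ring
        rwa [h5] at h4
      · obtain ⟨k, hk⟩ := hst
        have h3 : t = s + ((Q : ℕ) : ZI) * (-k) := by
          linear_combination -hk
        rw [h3]
        exact (IsCoprime.add_mul_left_left_iff).2 h2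
    intro s t hst
    refine ⟨key s t hst, key t s ?_⟩
    have := (dvd_neg).2 hst
    rwa [neg_sub] at this
  have hmain : ∀ x, fS δ ((cls Q r Y2).filter (fun t => Y1 < nz t)) mu x =
      mu d * fS δ ((bl (Y2 / nz d)).filter (fun s => Y1 / nz d < nz s ∧ P s)) mu
        (x - Complex.arg (d : ℂ)) := by
    intro x
    unfold fS
    rw [scale hd0 hr1 hq1, Finset.sum_image (fun a _ b _ hab => mul_left_cancel₀ hd0 hab),
      Finset.mul_sum]
    have e1 : (bl (Y2 / nz d)).filter (fun s => Y1 / nz d < nz s ∧ P s) =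
        ((bl (Y2 / nz d)).filter (fun s => Y1 / nz d < nz s ∧ q1 ∣ s - r1)).filter
          (fun s => IsCoprime s ((Q : ℕ) : ZI)) := by
      ext s
      simp only [mem_filter, hP]
      tauto
    rw [e1, Finset.sum_filter (fun s => IsCoprime s ((Q : ℕ) : ZI))]
    refine Finset.sum_congr rfl fun s hs => ?_
    rw [mem_filter, mem_bl] at hs
    obtain ⟨⟨hs0, -⟩, -, hs1⟩ := hs
    have hsq : IsCoprime s q1 := by
      obtain ⟨k, hk⟩ := hs1
      have h3 : s = r1 + q1 * k := by linear_combination hk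
      rw [h3]
      exact (IsCoprime.add_mul_left_left_iff).2 hcop
    rw [sc_mul δ x hd0 hs0]
    by_cases hc : IsCoprime s ((Q : ℕ) : ZI)
    · rw [if_pos hc]
      have hcd : IsCoprime d s := by
        rw [hq1] at hc
        exact (IsCoprime.of_mul_right_left hc).symm
      rw [hm1 d s hcd]
      ring
    · rw [if_neg hc]
      have hcd : ¬ IsCoprime d s := by
        intro hds
        apply hc
        rw [hq1]
        exact IsCoprime.mul_right hds.symm hsq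
      rw [hm2 d s hd0 hs0 hcd, zero_mul]
  simp_rw [hmain]
  have hrot := int_rot (fun x => (fS δ ((bl (Y2 / nz d)).filter (fun s => Y1 / nz d < nz s ∧ P s)) mu x) ^ 2)
    (fun x => by
      show (fS δ _ mu (x + 2 * Real.pi)) ^ 2 = (fS δ _ mu x) ^ 2
      rw [fS_per δ _ mu x]) (Complex.arg (d : ℂ))
  simp_rw [mul_pow]
  rw [intervalIntegral.integral_const_mul, hrot]
  have hE : 0 ≤ C * δ ^ 2 * V ^ 2 / (Real.log V) ^ (A + 4 * B) := by positivity
  have h1 := int_split hQ1 P hPper δ (Y1 / nz d) (Y2 / nz d) mu hE (fun r' hr' => by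
    have h2 := h V δ (Y1 / nz d) (Y2 / nz d) Q r' hV hδ1 hδ2 (by positivity)
      (div_le_div_of_nonneg_right hY2 (by linarith)) (by
        rw [div_le_iff₀ (by linarith)]
        nlinarith) hQ1 hQ2 ((hP r').1 hr').2
    exact h2)
  have hmu : (mu d) ^ 2 ≤ 1 := by
    rw [← sq_abs]
    exact pow_le_one₀ (abs_nonneg _) (abs_mu_le d)
  have hI : 0 ≤ ∫ x in (0 : ℝ)..(2 * Real.pi),
      (fS δ ((bl (Y2 / nz d)).filter (fun s => Y1 / nz d < nz s ∧ P s)) mu x) ^ 2 :=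
    intervalIntegral.integral_nonneg (by positivity) fun x _ => sq_nonneg _
  refine (mul_le_of_le_one_left hI hmu).trans (h1.trans ?_)
  have hQ4 : (Q : ℝ) ^ 4 ≤ (Real.log V) ^ (4 * B) := by
    have := pow_le_pow_left₀ (Nat.cast_nonneg Q) hQ2 4
    rwa [← pow_mul, mul_comm B 4] at this
  calc (Q : ℝ) ^ 4 * (C * δ ^ 2 * V ^ 2 / (Real.log V) ^ (A + 4 * B)) ≤
      (Real.log V) ^ (4 * B) * (C * δ ^ 2 * V ^ 2 / (Real.log V) ^ (A + 4 * B)) :=
        mul_le_mul_of_nonneg_right hQ4 hE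
    _ = C * δ ^ 2 * V ^ 2 / (Real.log V) ^ A := by
      rw [pow_add]
      field_simp

/-- counting in strips -/
theorem cnt_strip {ρ w p q : ℝ} (hρ : 0 ≤ ρ) (hw : 0 ≤ w) (hp : 1 / 2 ≤ |p|) (T : Finset (ℤ × ℤ))
    (h1 : ∀ t ∈ T, |(t.1 : ℝ)| ≤ ρ) (h2 : ∀ t ∈ T, |p * t.2 - q * t.1| ≤ w) :
    (T.card : ℝ) ≤ (2 * ρ + 1) * (4 * w + 1) := by
  have himg : ((T.image Prod.fst).card : ℝ) ≤ 2 * ρ + 1 := by
    have hsub : T.image Prod.fst ⊆ Icc (-⌊ρ⌋) ⌊ρ⌋ := by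
      intro a ha
      rw [mem_image] at ha
      obtain ⟨t, ht, rfl⟩ := ha
      have h3 := h1 t ht
      rw [abs_le] at h3
      rw [mem_Icc]
      constructor
      · have : -t.1 ≤ ⌊ρ⌋ := Int.le_floor.2 (by push_cast; linarith)
        omega
      · exact Int.le_floor.2 h3.2
    have h4 := Finset.card_le_card hsub
    rw [Int.card_Icc] at h4
    have h5 : 0 ≤ ⌊ρ⌋ := Int.floor_nonneg.2 hρ
    have h6 : (((⌊ρ⌋ + 1 - -⌊ρ⌋).toNat : ℕ) : ℝ) = 2 * (⌊ρ⌋ : ℝ) + 1 := by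
      have h7 : (((⌊ρ⌋ + 1 - -⌊ρ⌋).toNat : ℕ) : ℤ) = 2 * ⌊ρ⌋ + 1 := by omega
      have h8 : ((((⌊ρ⌋ + 1 - -⌊ρ⌋).toNat : ℕ) : ℤ) : ℝ) = ((2 * ⌊ρ⌋ + 1 : ℤ) : ℝ) := by rw [h7]
      push_cast at h8
      exact h8
    have h9 : ((T.image Prod.fst).card : ℝ) ≤ (((⌊ρ⌋ + 1 - -⌊ρ⌋).toNat : ℕ) : ℝ) := by
      exact_mod_cast h4
    have h10 := Int.floor_le ρ
    linarith
  have hfib : ∀ a ∈ T.image Prod.fst, (T.filter (fun t => t.1 = a)).card ≤ ⌊4 * w + 1⌋₊ := by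
    intro a _
    set y : ℝ := q * a / p with hy
    have hp0 : p ≠ 0 := by
      rintro rfl
      rw [abs_zero] at hp
      linarith
    have hsub : (T.filter (fun t => t.1 = a)).card ≤ (Icc ⌈y - 2 * w⌉ ⌊y + 2 * w⌋).card := by
      refine Finset.card_le_card_of_injOn Prod.snd ?_ ?_
      · intro t ht
        rw [mem_coe, mem_filter] at ht
        obtain ⟨ht, rfl⟩ := ht
        have h3 := h2 t ht
        have h4 : |(t.2 : ℝ) - y| ≤ 2 * w := by
          have h5 : (t.2 : ℝ) - y = (p * t.2 - q * t.1) / p := by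
            rw [hy]
            field_simp
          rw [h5, abs_div, div_le_iff₀ (by linarith)]
          nlinarith
        rw [abs_le] at h4
        rw [mem_coe, mem_Icc]
        exact ⟨Int.ceil_le.2 (by linarith), Int.le_floor.2 (by linarith)⟩
      · intro s hs t ht hst
        rw [mem_coe, mem_filter] at hs ht
        exact Prod.ext (hs.2.trans ht.2.symm) hst
    refine hsub.trans ?_
    rw [Int.card_Icc]
    apply Nat.le_floor
    have h5 := Int.le_ceil (y - 2 * w)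
    have h6 := Int.floor_le (y + 2 * w)
    rcases le_or_gt 0 (⌊y + 2 * w⌋ + 1 - ⌈y - 2 * w⌉) with h7 | h7
    · have h8 : (((⌊y + 2 * w⌋ + 1 - ⌈y - 2 * w⌉).toNat : ℕ) : ℤ) = ⌊y + 2 * w⌋ + 1 - ⌈y - 2 * w⌉ :=
        Int.toNat_of_nonneg h7
      have h9 : ((((⌊y + 2 * w⌋ + 1 - ⌈y - 2 * w⌉).toNat : ℕ) : ℤ) : ℝ) =
        ((⌊y + 2 * w⌋ + 1 - ⌈y - 2 * w⌉ : ℤ) : ℝ) := by rw [h8]
      push_cast at h9
      rw [h9]
      linarith
    · rw [Int.toNat_of_nonpos h7.le]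
      push_cast
      linarith
  have h3 := Finset.card_le_mul_card_image T _ hfib
  have h4 : (T.card : ℝ) ≤ (⌊4 * w + 1⌋₊ : ℝ) * ((T.image Prod.fst).card : ℝ) := by exact_mod_cast h3
  have h5 : (⌊4 * w + 1⌋₊ : ℝ) ≤ 4 * w + 1 := Nat.floor_le (by linarith)
  calc (T.card : ℝ) ≤ (⌊4 * w + 1⌋₊ : ℝ) * ((T.image Prod.fst).card : ℝ) := h4
    _ ≤ (4 * w + 1) * (2 * ρ + 1) := mul_le_mul h5 himg (Nat.cast_nonneg _) (by linarith)
    _ = _ := by ring

theorem sc_zero_or (δ x : ℝ) (t : ZI) : sc δ x t = 0 ∨ sc δ x t = 1 := by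
  classical
  unfold sc
  split_ifs
  · exact Or.inr rfl
  · exact Or.inl rfl

/-- the numbers in a sector are close to a line -/
theorem sector_line {δ x : ℝ} (hδ : 0 < δ) {t : ZI} (h : sc δ x t ≠ 0) :
    |Real.cos (x + δ / 2) * t.im - Real.sin (x + δ / 2) * t.re| ≤ Real.sqrt (nz t) * (δ / 2) := by
  classical
  unfold sc at h
  split_ifs at h with h1
  · obtain ⟨j, h2, h3⟩ := h1
    set z : ℂ := (t : ℂ) with hz
    have hre : z.re = t.re := by simp [hz]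
    have him : z.im = t.im := by simp [hz]
    have hn : ‖z‖ = Real.sqrt (nz t) := by
      rw [nz_eq, ← hre, ← him, Complex.norm_eq_sqrt_sq_add_sq]
    have e1 : (t.re : ℝ) = ‖z‖ * Real.cos (Complex.arg z) := by
      rw [Complex.norm_mul_cos_arg, hre]
    have e2 : (t.im : ℝ) = ‖z‖ * Real.sin (Complex.arg z) := by
      rw [Complex.norm_mul_sin_arg, him]
    have e3 : Real.cos (x + δ / 2) * t.im - Real.sin (x + δ / 2) * t.re =
        ‖z‖ * Real.sin (Complex.arg z + 2 * Real.pi * j - (x + δ / 2)) := by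
      have e4 : Complex.arg z + 2 * Real.pi * j - (x + δ / 2) =
          (Complex.arg z - (x + δ / 2)) + j * (2 * Real.pi) := by ring
      rw [e4, Real.sin_add_int_mul_two_pi, Real.sin_sub, e1, e2]
      ring
    rw [e3, abs_mul, abs_of_nonneg (norm_nonneg z), ← hn]
    refine mul_le_mul_of_nonneg_left ?_ (norm_nonneg z)
    refine (Real.abs_sin_le_abs).trans ?_
    rw [abs_le]
    constructor <;> linarith
  · exact absurd rfl h

open Classical in
/-- counting in sectors -/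
theorem cnt_sector {δ x X : ℝ} (hδ : 0 < δ) :
    (((bl X).filter (fun t => sc δ x t ≠ 0)).card : ℝ) ≤
      (2 * Real.sqrt X + 1) * (2 * (Real.sqrt X * δ) + 1) := by
  set ρ : ℝ := Real.sqrt X with hρ
  have hρ0 : 0 ≤ ρ := Real.sqrt_nonneg _
  set S := (bl X).filter (fun t => sc δ x t ≠ 0) with hS
  have hmem : ∀ t ∈ S, |(t.re : ℝ)| ≤ ρ ∧ |(t.im : ℝ)| ≤ ρ ∧
      |Real.cos (x + δ / 2) * t.im - Real.sin (x + δ / 2) * t.re| ≤ ρ * (δ / 2) := by
    intro t ht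
    rw [hS, mem_filter, mem_bl] at ht
    obtain ⟨⟨h1, h2⟩, h3⟩ := ht
    have h4 := nz_eq t
    refine ⟨?_, ?_, (sector_line hδ h3).trans ?_⟩
    · apply Real.abs_le_sqrt
      nlinarith [sq_nonneg (t.im : ℝ)]
    · apply Real.abs_le_sqrt
      nlinarith [sq_nonneg (t.re : ℝ)]
    · exact mul_le_mul_of_nonneg_right (Real.sqrt_le_sqrt h2) (by linarith)
  have hcs : 1 / 2 ≤ |Real.cos (x + δ / 2)| ∨ 1 / 2 ≤ |Real.sin (x + δ / 2)| := by
    by_contra hcon
    push Not at hcon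
    have h1 := Real.sin_sq_add_cos_sq (x + δ / 2)
    have h2 : (Real.cos (x + δ / 2)) ^ 2 < 1 / 4 := by
      rw [← sq_abs]
      nlinarith [abs_nonneg (Real.cos (x + δ / 2)), hcon.1]
    have h3 : (Real.sin (x + δ / 2)) ^ 2 < 1 / 4 := by
      rw [← sq_abs]
      nlinarith [abs_nonneg (Real.sin (x + δ / 2)), hcon.2]
    linarith
  have hw : 0 ≤ ρ * (δ / 2) := by positivity
  have e : (2 * ρ + 1) * (4 * (ρ * (δ / 2)) + 1) = (2 * ρ + 1) * (2 * (ρ * δ) + 1) := by ring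
  rw [← e]
  rcases hcs with hc | hc
  · have h1 := cnt_strip hρ0 hw hc (q := Real.sin (x + δ / 2))
      (S.image (fun t => (t.re, t.im))) (by
        intro p hp
        rw [mem_image] at hp
        obtain ⟨t, ht, rfl⟩ := hp
        exact (hmem t ht).1) (by
        intro p hp
        rw [mem_image] at hp
        obtain ⟨t, ht, rfl⟩ := hp
        exact (hmem t ht).2.2)
    rwa [Finset.card_image_of_injective _ (fun a b hab => by
      rw [Prod.mk.injEq] at hab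
      exact Zsqrtd.ext hab.1 hab.2)] at h1
  · have h1 := cnt_strip hρ0 hw hc (q := Real.cos (x + δ / 2))
      (S.image (fun t => (t.im, t.re))) (by
        intro p hp
        rw [mem_image] at hp
        obtain ⟨t, ht, rfl⟩ := hp
        exact (hmem t ht).2.1) (by
        intro p hp
        rw [mem_image] at hp
        obtain ⟨t, ht, rfl⟩ := hp
        rw [abs_sub_comm]
        exact (hmem t ht).2.2)
    rwa [Finset.card_image_of_injective _ (fun a b hab => by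
      rw [Prod.mk.injEq] at hab
      exact Zsqrtd.ext hab.2 hab.1)] at h1

end Pool.Agent.N864.GN.MB
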